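import Pool.Agent.DL.P.Defs

/-!
# DELTA (MP_d362fb_lc): Lemma V, definitions and statements of the rows

Lemma V: a move at a fresh position `m` with the cone of `s0` at the root is possible in a
suitable extension.
-/

set_option autoImplicit false

namespace Pool.Agent.DL.P.V

open H5.DL

/-- some label of `s` is strictly above `l` in both coordinates -/
def Up (l : D) (s : Node) : Prop := ∃ ν d, s.f ν = some d ∧ Ll l d

/-- some label of `s` is at least `l` -/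
def Ge (l : D) (s : Node) : Prop := ∃ ν d, s.f ν = some d ∧ l ≤ d

/-- the plan: `Q` is the set of the components which move, `s q` the segment which defines the
cone at `q`, `W q` the set of the protected nodes (present or not) at `q` -/
structure Plan (r : Sys Prom) (s0 : Node) (s : ℕ → Node) (Q : Set ℕ) (W : ℕ → Set Node) :
    Prop where
  rt : r.rt ∈ Q
  s0 : s r.rt = s0
  QJ : ∀ q ∈ Q, q ∈ r.J
  lab : ∀ q ∈ Q, LabIn (r.K q) (s q)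
  WQ : ∀ q ∈ Q, ∀ y, y ∈ W q ↔ s q ≤ y
  Wle : ∀ q ∈ r.J, ∀ y ∈ W q, s q ≤ y
  Wsh : ∀ p q, r.E p q → ∀ y ∈ (r.Z p q).N, y ∈ W p → y ∈ W q
  Wout : ∀ q ∈ r.J, q ∉ Q → ∀ y, .nd y ∈ r.X q → y ∉ W q
  adm : ∀ p q, r.E p q → ∀ l ∈ (r.Z p q).L, l ∈ r.K p → Up l (s p) → Up l (s q)

/-- V-A: the plan exists -/
def SPlan : Prop := ∀ (Lg : Prom → Prop) (r : Sys Prom) (s0 : Node), Valid Lg r →
  LabIn (r.K r.rt) s0 → ∃ s Q W, Plan r s0 s Q W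

/-- the lowered levels -/
def lowK (r : Sys Prom) (k : D) (s : ℕ → Node) (q : ℕ) : Set D :=
  {l | l ∈ r.K q ∧ Ll l k ∧ Up l (s q)}

/-- the fact does not mention a promise with label outside `K` -/
def Keep (K : Set D) : Fact Prom → Prop
  | .pr ψ => ψ.lab ∈ K
  | .rl ψ _ => ψ.lab ∈ K
  | _ => True

/-- the system with the lowered levels, rooted at `i`, with `m` blocked at all nodes -/
def star (r : Sys Prom) (k : D) (i : ℕ) (s : ℕ → Node) (m : ℕ) : Sys Prom where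
  n := r.n
  rt := i
  J := r.J
  E := r.E
  K := lowK r k s
  Z := r.Z
  X := fun j => {f | (f ∈ r.X j ∧ Keep (lowK r k s j) f) ∨ ∃ x, .nd x ∈ r.X j ∧ f = .bl x m}

/-- the legal promises with label strictly below `k` -/
def LgB (k : D) (ψ : Prom) : Prop := Ll ψ.lab k ∧ Legal ψ

/-- V-B: the star system is a valid system of `P_k` -/
def SStar : Prop := ∀ (r : Sys Prom) (s0 : Node) (s : ℕ → Node) (Q : Set ℕ) (W : ℕ → Set Node)
  (i m : ℕ) (φ : Prom), Valid Legal r → Plan r s0 s Q W → i ∈ Q → .pr φ ∈ r.X i →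
    Ge φ.lab (s i) →
    Valid (LgB φ.lab) (star r φ.lab i s m) ∧ (star r φ.lab i s m).K i = dn φ.lab ∧
      Below (dn φ.lab) (star r φ.lab i s m)

/-- facts which are removed by the lift (unless they are in `r`): `m` blocked at a protected
node, tokens with a protected node -/
def Bad (W : ℕ → Set Node) (m j : ℕ) : Fact Prom → Prop
  | .bl x m' => m' = m ∧ x ∈ W j
  | .ds x y => x ∈ W j ∨ y ∈ W j
  | _ => False

open Classical in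
/-- the lift of a system `t` of the sequence over the star system to a system over `r` -/
noncomputable def lift (r : Sys Prom) (W : ℕ → Set Node) (m : ℕ) (t : Sys Prom) : Sys Prom where
  n := t.n
  rt := r.rt
  J := t.J
  E := t.E
  K := fun j => if j ∈ r.J then r.K j else t.K j
  Z := t.Z
  X := fun j => if j ∈ r.J then r.X j ∪ {f | f ∈ t.X j ∧ ¬ Bad W m j f} else t.X j

/-- what is known about the systems `t` of the sequence over the star system -/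
structure Inv (r : Sys Prom) (k : D) (i : ℕ) (s : ℕ → Node) (W : ℕ → Set Node) (m : ℕ)
    (t : Sys Prom) : Prop where
  val : Valid (LgB k) t
  bel : Below (dn k) t
  n : r.n ≤ t.n
  rt : t.rt = i
  J : r.J ⊆ t.J
  E : ∀ p ∈ r.J, ∀ q ∈ r.J, t.E p q ↔ r.E p q
  K : ∀ j ∈ r.J, t.K j = lowK r k s j
  Z : ∀ p q, r.E p q → t.Z p q = r.Z p q
  X : ∀ j ∈ r.J, (star r k i s m).X j ⊆ t.X j
  it : ∀ j ∈ r.J, ∀ x, .nd x ∈ r.X j → ∀ v, .it x m v ∈ t.X j → .it x m v ∈ r.X j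
  nd : ∀ j ∈ r.J, ∀ y, .nd y ∈ t.X j → y ∈ W j → .nd y ∈ r.X j
  frN : ∀ j ∈ r.J, ∀ q, q ∉ r.J → t.E j q → ∀ y ∈ (t.Z j q).N, y ∉ W j
  frL : ∀ j ∈ r.J, ∀ q, q ∉ r.J → t.E j q → ∀ l ∈ (t.Z j q).L, l ∈ t.K j

/-- V-C1: the lift of a system of the sequence is valid -/
def SLiftVal : Prop := ∀ (r : Sys Prom) (s0 : Node) (s : ℕ → Node) (Q : Set ℕ)
  (W : ℕ → Set Node) (k : D) (i m : ℕ) (t : Sys Prom), Valid Legal r → Plan r s0 s Q W →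
    i ∈ Q → Inv r k i s W m t → Valid Legal (lift r W m t)

/-- V-C2: growth steps are lifted -/
def SLiftExt : Prop := ∀ (r : Sys Prom) (s0 : Node) (s : ℕ → Node) (Q : Set ℕ)
  (W : ℕ → Set Node) (k : D) (i m : ℕ) (t t' : Sys Prom), Valid Legal r → Plan r s0 s Q W →
    i ∈ Q → Inv r k i s W m t → Inv r k i s W m t' → Ext t t' →
    Ext (lift r W m t) (lift r W m t')

/-- V-C3: time steps are lifted -/
def SLiftTime : Prop := ∀ (r : Sys Prom) (s0 : Node) (s : ℕ → Node) (Q : Set ℕ)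
  (W : ℕ → Set Node) (k : D) (i m m' : ℕ) (C : ℕ → Set Node) (t t' : Sys Prom),
    Valid Legal r → Plan r s0 s Q W → i ∈ Q → Inv r k i s W m t → Inv r k i s W m t' →
    Time t t' m' C → Time (lift r W m t) (lift r W m t') m' C

/-- the new components hang on old ones -/
def Anc (r t : Sys Prom) (anc : ℕ → ℕ) : Prop :=
  (∀ q ∈ t.J, q ∉ r.J → anc q ∈ r.J) ∧
    (∀ q q', q ∉ r.J → q' ∉ r.J → t.E q q' → anc q = anc q') ∧
    ∀ j ∈ r.J, ∀ q, q ∉ r.J → t.E j q → anc q = j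

/-- `t` extends `r` without touching the plan -/
structure Away (r : Sys Prom) (W : ℕ → Set Node) (t : Sys Prom) : Prop where
  rt : t.rt = r.rt
  J : r.J ⊆ t.J
  E : ∀ p ∈ r.J, ∀ q ∈ r.J, t.E p q ↔ r.E p q
  K : ∀ j ∈ r.J, t.K j = r.K j
  Z : ∀ p q, r.E p q → t.Z p q = r.Z p q
  nd : ∀ j ∈ r.J, ∀ y, .nd y ∈ t.X j → y ∈ W j → .nd y ∈ r.X j
  frN : ∀ j ∈ r.J, ∀ q, q ∉ r.J → t.E j q → ∀ y ∈ (t.Z j q).N, y ∉ W j
  anc : ∃ anc, Anc r t anc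

open Classical in
/-- V-D: the plan persists -/
def SPersist : Prop := ∀ (Lg : Prom → Prop) (r t : Sys Prom) (s0 : Node) (s : ℕ → Node)
  (Q : Set ℕ) (W : ℕ → Set Node), Valid Lg r → Valid Lg t → Plan r s0 s Q W → Away r W t →
    ∃ s' W', Plan t s0 s' Q W' ∧ (∀ q ∈ r.J, s' q = s q ∧ W' q = W q) ∧
      ∀ q ∈ t.J, q ∉ r.J → W' q = ∅

/-- the properties of `m` which are kept in the induction -/
structure FreeAt (r : Sys Prom) (W : ℕ → Set Node) (m : ℕ) : Prop where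
  n : m < r.n
  fr : ∀ j x, .nd x ∈ r.X j → x ∈ W j → .bl x m ∉ r.X j
  tok : ∀ j x y, .nd x ∈ r.X j → x ∈ W j → .nd y ∈ r.X j → y ∉ W j →
    (.ds x y ∈ r.X j ∨ .ds y x ∈ r.X j) → ∀ v, .it y m v ∉ r.X j

/-- the obstacles: promises of moving components which are not yet released at `m` -/
def Obs (r : Sys Prom) (s : ℕ → Node) (Q : Set ℕ) (m : ℕ) : Set (ℕ × Prom) :=
  {p | p.1 ∈ Q ∧ .pr p.2 ∈ r.X p.1 ∧ .rl p.2 m ∉ r.X p.1 ∧ Ge p.2.lab (s p.1)}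

/-- V-E: one round (from Lemma R, the lift and the attachment) -/
def SRound : Prop := ∀ (r : Sys Prom) (s0 : Node) (s : ℕ → Node) (Q : Set ℕ)
  (W : ℕ → Set Node) (m i : ℕ) (φ : Prom), IsCond r → Plan r s0 s Q W → FreeAt r W m →
    (i, φ) ∈ Obs r s Q m →
    ∃ (t : Sys Prom) (s' : ℕ → Node) (W' : ℕ → Set Node), IsCond t ∧ Steps Legal r t ∧
      Plan t s0 s' Q W' ∧ FreeAt t W' m ∧ t.rt = r.rt ∧ (i, φ) ∉ Obs t s' Q m ∧
      (∀ p ∈ Obs t s' Q m, p ∈ Obs r s Q m ∨ Ll p.2.lab φ.lab) ∧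
      ∀ j ∈ r.J, ∀ x v, .nd x ∈ r.X j → .it x m v ∈ t.X j → .it x m v ∈ r.X j

/-- V-F: all obstacles can be removed (induction on the multiset of the labels) -/
def SClear : Prop := ∀ (r : Sys Prom) (s0 : Node) (s : ℕ → Node) (Q : Set ℕ)
  (W : ℕ → Set Node) (m : ℕ), IsCond r → Plan r s0 s Q W → FreeAt r W m →
    ∃ (t : Sys Prom) (s' : ℕ → Node) (W' : ℕ → Set Node), IsCond t ∧ Steps Legal r t ∧
      Plan t s0 s' Q W' ∧ FreeAt t W' m ∧ t.rt = r.rt ∧ Obs t s' Q m = ∅ ∧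
      ∀ j ∈ r.J, ∀ x v, .nd x ∈ r.X j → .it x m v ∈ t.X j → .it x m v ∈ r.X j

/-- V-G: the planned move -/
def SMove : Prop := ∀ (r : Sys Prom) (s0 : Node) (s : ℕ → Node) (Q : Set ℕ)
  (W : ℕ → Set Node) (m : ℕ), IsCond r → Plan r s0 s Q W → FreeAt r W m → Obs r s Q m = ∅ →
    ∃ (t : Sys Prom) (C : ℕ → Set Node), IsCond t ∧ Time r t m C ∧
      ∀ x, x ∈ C r.rt ↔ .nd x ∈ r.X r.rt ∧ s0 ≤ x

/-- V-H: idle steps -/
def SIdle : Prop := ∀ (r : Sys Prom) (N : ℕ), IsCond r →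
  ∃ t, IsCond t ∧ Steps Legal r t ∧ N < t.n ∧ t.rt = r.rt ∧ t.J = r.J ∧ t.E = r.E ∧
    t.K = r.K ∧ t.Z = r.Z ∧ t.X = r.X

/-- Lemma V -/
def LemV : Prop := ∀ (r : Sys Prom), IsCond r → ∀ (s x : Node), .nd x ∈ r.X r.rt → s ≤ x →
  ∀ m, (∀ j y, .bl y m ∉ r.X j) →
    ∃ r', Steps Legal r r' ∧ IsCond r' ∧ (∃ v, .it x m v ∈ r'.X r'.rt) ∧
      ∀ y, .nd y ∈ r.X r.rt → ¬ s ≤ y → ∀ v, .it y m v ∉ r'.X r'.rt

/-- Lemma V from its parts -/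
def SVOf : Prop := SPlan → SClear → SMove → SIdle → LemV

/-- families closed under everything which Lemma R keeps -/
structure Clo (r : Sys Prom) (T : Set (Fact Prom)) (WN : ℕ → Set Node) (WQ : ℕ → Set Prom) :
    Prop where
  rN : ∀ j ∈ r.J, ∀ y, .nd y ∈ r.X j → y ∈ WN j
  rQ : ∀ j ∈ r.J, ∀ ψ, .pr ψ ∈ r.X j → ψ ∈ WQ j
  t1 : ∀ x m, .bl x m ∈ T → .nd x ∈ T
  t2 : ∀ x m v, .it x m v ∈ T → .nd x ∈ T
  t3 : ∀ x y, .ds x y ∈ T → .nd x ∈ T ∧ .nd y ∈ T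
  t4 : ∀ ψ m, .rl ψ m ∈ T → .pr ψ ∈ T
  tN : ∀ y, .nd y ∈ T → y ∈ WN r.rt
  tQ : ∀ ψ, .pr ψ ∈ T → ψ ∈ WQ r.rt
  eN : ∀ j ∈ r.J, ∀ ψ ∈ WQ j, Legal ψ → ∀ m e, Ev ψ m e → ∀ y, .nd y ∈ e.X e.rt → y ∈ WN j
  eQ : ∀ j ∈ r.J, ∀ ψ ∈ WQ j, Legal ψ → ∀ m e, Ev ψ m e → ∀ χ, .pr χ ∈ e.X e.rt → χ ∈ WQ j
  fN : ∀ j ∈ r.J, ∀ ψ ∈ WQ j, Legal ψ → ∀ m e, Ev ψ m e → ∀ a, e.E e.rt a →
    ∀ y ∈ (e.Z e.rt a).N, y ∈ WN j
  fQ : ∀ j ∈ r.J, ∀ ψ ∈ WQ j, Legal ψ → ∀ m e, Ev ψ m e → ∀ a, e.E e.rt a →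
    ∀ χ ∈ (e.Z e.rt a).Q, χ ∈ WQ j
  sN : ∀ p q, r.E p q → ∀ y ∈ (r.Z p q).N, y ∈ WN p → y ∈ WN q
  sQ : ∀ p q, r.E p q → ∀ ψ ∈ (r.Z p q).Q, ψ ∈ WQ p → ψ ∈ WQ q

/-- invariant of the restricted sequence -/
structure InvR (r : Sys Prom) (WN : ℕ → Set Node) (WQ : ℕ → Set Prom) (b : Sys Prom) :
    Prop where
  N : ∀ j ∈ r.J, ∀ y, .nd y ∈ b.X j → y ∈ WN j
  Q : ∀ j ∈ r.J, ∀ ψ, .pr ψ ∈ b.X j → ψ ∈ WQ j
  fr : ∀ j ∈ r.J, ∀ q, q ∉ r.J → b.E j q →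
    ∃ ψ m e a, .pr ψ ∈ b.X j ∧ Ev ψ m e ∧ e.E e.rt a ∧ b.Z j q = e.Z e.rt a

/-- the form of Lemma R which is used in Lemma V -/
def SR : Prop := ∀ (Lg : Prom → Prop) (K : Set D) (r t1 : Sys Prom) (T : Set (Fact Prom))
  (WN : ℕ → Set Node) (WQ : ℕ → Set Prom), (∀ φ, Lg φ → Legal φ) → Valid Lg r → Below K r →
    StepsIn Lg K r t1 → T ⊆ t1.X r.rt → Clo r T WN WQ →
    ∃ t2, Relation.ReflTransGen (fun a b => Step Lg a b ∧ Below K b ∧ InvR r WN WQ b) r t2 ∧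
      t2.n = t1.n ∧ (∀ j, t2.X j ⊆ t1.X j) ∧ T ⊆ t2.X r.rt ∧ ∃ anc, Anc r t2 anc

/-- connected in `r` by edges whose frames contain `φ` -/
def Conn (r : Sys Prom) (φ : Prom) : ℕ → ℕ → Prop :=
  Relation.ReflTransGen fun p q => r.E p q ∧ φ ∈ (r.Z p q).Q

/-- the attachment of an event at `i` and at all components which share the promise -/
def SAttach : Prop := ∀ (r e : Sys Prom) (φ : Prom) (i m : ℕ), Valid Legal r → i ∈ r.J →
  .pr φ ∈ r.X i → Ev φ m e → e.n = r.n → Ex (e.X e.rt) (r.X i) →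
    ∃ t, Valid Legal t ∧ Ext r t ∧ .rl φ m ∈ t.X i ∧
      (∀ j ∈ r.J, ∀ f ∈ t.X j, f ∈ r.X j ∨ f = .rl φ m) ∧
      (∀ j ∈ r.J, ∀ q, q ∉ r.J → t.E j q →
        Conn r φ i j ∧ ∃ a, e.E e.rt a ∧ t.Z j q = e.Z e.rt a) ∧
      (∀ q ∈ t.J, q ∉ r.J → t.K q ⊆ dn φ.lab) ∧ ∃ anc, Anc r t anc

/-- V-E from its parts -/
def SRoundOf : Prop := SStar → SR → SLiftVal → SLiftExt → SLiftTime → SPersist → SAttach →
  SRound

/-- V-F from V-E -/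
def SClearOf : Prop := SRound → SClear

end Pool.Agent.DL.P.V
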