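import Pool.Agent.H41.DL.Attach
import Pool.Agent.DL.P.V.Stm

/-!
# DELTA (MP_d362fb_lc), row V-T: the attachment of an event
-/

set_option autoImplicit false

namespace Pool.Agent.DL.P.V

open H5.DL Pool.Agent.H41.DL

theorem sattach : SAttach := by
  intro r e φ i m hr _ hφ hev hn hx
  obtain ⟨t, h1, h2, h3, h4, h5, h6, anc, a1, a2, a3⟩ := release hr hφ hev hn hx
  exact ⟨t, h1, h2, h3, h4, h5, h6, anc, a1, a2, a3⟩

end Pool.Agent.DL.P.V
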