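import Pool.Agent.DL.P.V.Stm
import Mathlib.Data.Multiset.DershowitzManna

/-!
# DELTA (MP_d362fb_lc), Lemma V, row V-F: all obstacles can be removed
-/

set_option autoImplicit false

namespace Pool.Agent.DL.P.V

open H5.DL

theorem step_mono {Lg : Prom → Prop} {r t : Sys Prom} (h : Step Lg r t) :
    r.J ⊆ t.J ∧ ∀ j ∈ r.J, r.X j ⊆ t.X j := by
  obtain ⟨_, h | ⟨m, C, h⟩⟩ := h
  · exact ⟨h.J, fun j hj => (h.X j hj).sub⟩
  · exact ⟨h.J.ge, fun j _ f hf => (h.X j f).2 (Or.inl hf)⟩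

theorem steps_mono {Lg : Prom → Prop} {r t : Sys Prom} (h : Steps Lg r t) :
    r.J ⊆ t.J ∧ ∀ j ∈ r.J, r.X j ⊆ t.X j := by
  induction h with
  | refl => exact ⟨subset_rfl, fun _ _ => subset_rfl⟩
  | tail _ hs ih =>
    have h2 := step_mono hs
    exact ⟨ih.1.trans h2.1, fun j hj => (ih.2 j hj).trans (h2.2 j (ih.1 hj))⟩

theorem obs_fin {Lg : Prom → Prop} {r : Sys Prom} {s0 : Node} {s : ℕ → Node} {Q : Set ℕ}
    {W : ℕ → Set Node} (m : ℕ) (hr : Valid Lg r) (hp : Plan r s0 s Q W) :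
    (Obs r s Q m).Finite := by
  have h1 : (⋃ j ∈ r.J, Prod.mk j '' {φ : Prom | Fact.pr φ ∈ r.X j}).Finite := by
    refine Set.Finite.biUnion hr.fin fun j hj => Set.Finite.image _ ?_
    exact (hr.val j hj).fin.preimage (f := Fact.pr) (by
      intro a _ b _ hab
      injection hab)
  refine h1.subset ?_
  rintro ⟨j, φ⟩ h
  obtain ⟨hq, hx, -, -⟩ := h
  simp only [Set.mem_iUnion, Set.mem_image, Set.mem_ofPred_eq]
  exact ⟨j, hp.QJ j hq, φ, hx, rfl⟩

/-- the measure of a finite set of obstacles -/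
def mea (A : Finset (ℕ × Prom)) : Multiset W1 := A.val.map fun p => p.2.lab.1

open Classical in
theorem mea_lt {A B : Finset (ℕ × Prom)} {a : ℕ × Prom} (ha : a ∈ A) (hb : a ∉ B)
    (h : ∀ p ∈ B, p ∈ A ∨ Ll p.2.lab a.2.lab) :
    Multiset.IsDershowitzMannaLT (mea B) (mea A) := by
  refine ⟨(A ∩ B).val.map fun p => p.2.lab.1, (B \ A).val.map fun p => p.2.lab.1,
    (A \ B).val.map fun p => p.2.lab.1, ?_, ?_, ?_, ?_⟩
  · intro h0
    have h1 : a.2.lab.1 ∈ (A \ B).val.map fun p => p.2.lab.1 :=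
      Multiset.mem_map_of_mem _ (Finset.mem_sdiff.2 ⟨ha, hb⟩)
    rw [h0] at h1
    exact Multiset.notMem_zero _ h1
  · rw [← Multiset.map_add, mea]
    congr 1
    have h1 : Disjoint (A ∩ B) (B \ A) := by
      rw [Finset.disjoint_left]
      intro p hp hq
      exact (Finset.mem_sdiff.1 hq).2 (Finset.mem_inter.1 hp).1
    have h2 : (A ∩ B).disjUnion (B \ A) h1 = B := by
      ext p
      simp only [Finset.mem_disjUnion, Finset.mem_inter, Finset.mem_sdiff]
      tauto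
    conv_lhs => rw [← h2]
    rfl
  · rw [← Multiset.map_add, mea]
    congr 1
    have h1 : Disjoint (A ∩ B) (A \ B) := by
      rw [Finset.disjoint_left]
      intro p hp hq
      exact (Finset.mem_sdiff.1 hq).2 (Finset.mem_inter.1 hp).2
    have h2 : (A ∩ B).disjUnion (A \ B) h1 = A := by
      ext p
      simp only [Finset.mem_disjUnion, Finset.mem_inter, Finset.mem_sdiff]
      tauto
    conv_lhs => rw [← h2]
    rfl
  · intro y hy
    obtain ⟨p, hp, rfl⟩ := Multiset.mem_map.1 hy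
    obtain ⟨hp1, hp2⟩ := Finset.mem_sdiff.1 hp
    refine ⟨a.2.lab.1, Multiset.mem_map_of_mem _ (Finset.mem_sdiff.2 ⟨ha, hb⟩), ?_⟩
    rcases h p hp1 with h' | h'
    · exact absurd h' hp2
    · exact h'.1

/-- V-F -/
theorem sclearOf : SClearOf := by
  intro hR
  have : WellFoundedLT W1 := ⟨idx.wfK⟩
  have key : ∀ M : Multiset W1, ∀ (r : Sys Prom) (s0 : Node) (s : ℕ → Node) (Q : Set ℕ)
      (W : ℕ → Set Node) (m : ℕ) (A : Finset (ℕ × Prom)), IsCond r → Plan r s0 s Q W →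
      FreeAt r W m → (∀ p, p ∈ A ↔ p ∈ Obs r s Q m) → mea A = M →
      ∃ (t : Sys Prom) (s' : ℕ → Node) (W' : ℕ → Set Node), IsCond t ∧ Steps Legal r t ∧
        Plan t s0 s' Q W' ∧ FreeAt t W' m ∧ t.rt = r.rt ∧ Obs t s' Q m = ∅ ∧
        ∀ j ∈ r.J, ∀ x v, .nd x ∈ r.X j → .it x m v ∈ t.X j → .it x m v ∈ r.X j := by
    intro M
    induction M using (Multiset.wellFounded_isDershowitzMannaLT (α := W1)).induction with
    | _ M ih =>
    intro r s0 s Q W m A hc hp hf hA hM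
    by_cases h0 : Obs r s Q m = ∅
    · exact ⟨r, s, W, hc, Relation.ReflTransGen.refl, hp, hf, rfl, h0,
        fun _ _ _ _ _ h => h⟩
    obtain ⟨⟨i, φ⟩, hi⟩ := Set.nonempty_iff_ne_empty.2 h0
    obtain ⟨t, s', W', hc', hs', hp', hf', hrt, hn, hob, hit⟩ :=
      hR r s0 s Q W m i φ hc hp hf hi
    have hfin := obs_fin m hc'.val hp'
    obtain ⟨t2, s2, W2, hc2, hs2, hp2, hf2, hrt2, hob2, hit2⟩ :=
      ih (mea hfin.toFinset) (by
        rw [← hM]
        refine mea_lt (a := (i, φ)) ((hA _).2 hi) ?_ ?_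
        · rw [Set.Finite.mem_toFinset]
          exact hn
        · intro p hp
          rw [Set.Finite.mem_toFinset] at hp
          rcases hob p hp with h | h
          · exact Or.inl ((hA _).2 h)
          · exact Or.inr h) t s0 s' Q W' m hfin.toFinset hc' hp' hf'
        (fun p => hfin.mem_toFinset) rfl
    have hm := steps_mono hs'
    refine ⟨t2, s2, W2, hc2, hs'.trans hs2, hp2, hf2, hrt2.trans hrt, hob2, ?_⟩
    intro j hj x v hx hv
    exact hit j hj x v hx (hit2 j (hm.1 hj) x v (hm.2 j hj hx) hv)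
  intro r s0 s Q W m hc hp hf
  have hfin := obs_fin m hc.val hp
  exact key _ r s0 s Q W m hfin.toFinset hc hp hf (fun p => hfin.mem_toFinset) rfl

end Pool.Agent.DL.P.V
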