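import Pool.Agent.DL.P.V.Stm
import Pool.Agent.DL.P.PushC

/-!
# DELTA (MP_d362fb_lc), row V-H: idle steps
-/

set_option autoImplicit false

namespace Pool.Agent.DL.P.V

open H5.DL

theorem sidle : SIdle := fun r N h =>
  ⟨r.wait (N + 1), h.wait _, wait_steps h.val _, by
    show N < r.n + (N + 1)
    omega, rfl, rfl, rfl, rfl, rfl, rfl⟩

end Pool.Agent.DL.P.V
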