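import Pool.Agent.DL.P.V.Stm
import Pool.Agent.DL.P.Kept

/-!
# DELTA, Lemma V: the lift of the steps over the star system
-/

set_option autoImplicit false

namespace Pool.Agent.DL.P.V

open H5.DL

section

variable {r t t' : Sys Prom} {k : D} {i m j : ℕ} {s : ℕ → Node} {W : ℕ → Set Node}
  {s0 : Node} {Q : Set ℕ} {f : Fact Prom}

theorem lowK_low (h : IsLowerSet (r.K j)) : IsLowerSet (lowK r k s j) := by
  rintro a b hba ⟨h1, h2, ν, d, h3, h4⟩
  exact ⟨h hba h1, Ll.of_le hba h2, ν, d, h3, Ll.of_le hba h4⟩

theorem lf_K_old (hj : j ∈ r.J) : (lift r W m t).K j = r.K j := if_pos hj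

theorem lf_K_new (hj : j ∉ r.J) : (lift r W m t).K j = t.K j := if_neg hj

theorem lf_X_new (hj : j ∉ r.J) : (lift r W m t).X j = t.X j := if_neg hj

theorem lf_mem_old (hj : j ∈ r.J) :
    f ∈ (lift r W m t).X j ↔ f ∈ r.X j ∨ f ∈ t.X j ∧ ¬ Bad W m j f := by
  have h : (lift r W m t).X j = r.X j ∪ {f | f ∈ t.X j ∧ ¬ Bad W m j f} := if_pos hj
  rw [h]
  exact Iff.rfl

theorem Inv.old (h : Inv r k i s W m t) (hj : j ∈ r.J) (hf : f ∈ r.X j)
    (hk : Keep (lowK r k s j) f) : f ∈ t.X j := h.X j hj (Or.inl ⟨hf, hk⟩)

theorem Inv.bl (h : Inv r k i s W m t) (hj : j ∈ r.J) {x : Node} (hx : .nd x ∈ r.X j) :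
    .bl x m ∈ t.X j := h.X j hj (Or.inr ⟨x, hx, rfl⟩)

/-- facts of the lift which are not about promises are in `t` -/
theorem Inv.of_lift (h : Inv r k i s W m t) (hf : f ∈ (lift r W m t).X j)
    (hk : ∀ K, Keep K f) : f ∈ t.X j := by
  by_cases hj : j ∈ r.J
  · rcases (lf_mem_old hj).1 hf with h0 | h0
    · exact h.old hj h0 (hk _)
    · exact h0.1
  · rw [lf_X_new hj] at hf
    exact hf

/-- facts of `t` which are not bad are in the lift -/
theorem Inv.to_lift (hf : f ∈ t.X j) (hb : j ∈ r.J → ¬ Bad W m j f) :
    f ∈ (lift r W m t).X j := by
  by_cases hj : j ∈ r.J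
  · exact (lf_mem_old hj).2 (Or.inr ⟨hf, hb hj⟩)
  · rw [lf_X_new hj]
    exact hf

theorem Inv.K_le (h : Inv r k i s W m t) (hj : j ∈ t.J) :
    t.K j ⊆ (lift r W m t).K j := by
  by_cases hj' : j ∈ r.J
  · rw [lf_K_old hj', h.K j hj']
    exact fun l hl => hl.1
  · rw [lf_K_new hj']

/-- promises of the lift: in `t`, or old with a label outside the lowered level -/
theorem Inv.pr_lift (h : Inv r k i s W m t) {φ : Prom} (hf : .pr φ ∈ (lift r W m t).X j) :
    .pr φ ∈ t.X j ∨ j ∈ r.J ∧ .pr φ ∈ r.X j ∧ φ.lab ∉ t.K j := by
  by_cases hj : j ∈ r.J
  · rcases (lf_mem_old hj).1 hf with h0 | h0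
    · by_cases hK : φ.lab ∈ lowK r k s j
      · exact Or.inl (h.old hj h0 hK)
      · rw [h.K j hj]
        exact Or.inr ⟨hj, h0, hK⟩
    · exact Or.inl h0.1
  · rw [lf_X_new hj] at hf
    exact Or.inl hf

theorem Inv.rl_lift (h : Inv r k i s W m t) {φ : Prom} {m' : ℕ} (hφ : .pr φ ∈ t.X j)
    (hf : .rl φ m' ∈ (lift r W m t).X j) : .rl φ m' ∈ t.X j := by
  by_cases hj : j ∈ r.J
  · rcases (lf_mem_old hj).1 hf with h0 | h0
    · refine h.old hj h0 ?_
      have := ((h.val.val j (h.J hj)).leg φ hφ).2
      rw [h.K j hj] at this
      exact this
    · exact h0.1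
  · rw [lf_X_new hj] at hf
    exact hf

/-- V-C1 -/
theorem liftVal : SLiftVal := by
  intro r s0 s Q W k i m t hv hP hi hI
  have htv := hI.val
  have hndt : ∀ j x, .nd x ∈ (lift r W m t).X j ↔ .nd x ∈ t.X j := by
    intro j x
    exact ⟨fun h => hI.of_lift h fun _ => trivial, fun h => Inv.to_lift h fun _ h' => h'⟩
  refine
    { fin := htv.fin
      rt := hI.J hv.rt
      Es := htv.Es
      EJ := htv.EJ
      forest := htv.forest
      low := ?_
      symZ := htv.symZ
      good := htv.good
      nX := ?_
      nZ := htv.nZ
      val := ?_
      adm := ?_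
      sh := ?_ }
  · intro j hj
    by_cases hj' : j ∈ r.J
    · rw [lf_K_old hj']; exact hv.low j hj'
    · rw [lf_K_new hj']; exact htv.low j hj
  · intro j hj
    have hj' : j ∉ r.J := fun h => hj (hI.J h)
    rw [lf_X_new hj']
    exact htv.nX j hj
  · intro j hj
    have hT := htv.val j hj
    by_cases hj' : j ∈ r.J
    · have hR := hv.val j hj'
      exact
        { fin := by
            refine (hR.fin.union hT.fin).subset fun f hf => ?_
            rcases (lf_mem_old hj').1 hf with h0 | h0
            · exact Or.inl h0
            · exact Or.inr h0.1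
          itb := by
            intro x m' v hf
            rcases (lf_mem_old hj').1 hf with h0 | ⟨h0, -⟩
            · exact ⟨(lf_mem_old hj').2 (Or.inl (hR.itb x m' v h0).1),
                lt_of_lt_of_le (hR.itb x m' v h0).2 hI.n⟩
            · refine ⟨?_, (hT.itb x m' v h0).2⟩
              by_cases hb : Bad W m j (.bl x m')
              · obtain ⟨rfl, hx⟩ := hb
                have h1 := hI.nd j hj' x (hT.blx x _ (hT.itb x _ v h0).1) hx
                have h2 := hI.it j hj' x h1 v h0
                exact (lf_mem_old hj').2 (Or.inl (hR.itb x _ v h2).1)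
              · exact (lf_mem_old hj').2 (Or.inr ⟨(hT.itb x m' v h0).1, hb⟩)
          blx := by
            intro x m' hf
            exact (hndt j x).2 (hT.blx x m' (hI.of_lift hf fun _ => trivial))
          dsx := by
            intro x y hf
            have h0 := hT.dsx x y (hI.of_lift hf fun _ => trivial)
            exact ⟨(hndt j x).2 h0.1, (hndt j y).2 h0.2⟩
          rlx := by
            intro φ m' hf
            rcases (lf_mem_old hj').1 hf with h0 | ⟨h0, -⟩
            · exact (lf_mem_old hj').2 (Or.inl (hR.rlx φ m' h0))
            · exact (lf_mem_old hj').2 (Or.inr ⟨hT.rlx φ m' h0, fun h => h⟩)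
          fn := by
            intro x m' v v' h1 h2
            exact hT.fn x m' v v' (hI.of_lift h1 fun _ => trivial)
              (hI.of_lift h2 fun _ => trivial)
          leg := by
            intro φ hf
            rw [lf_K_old hj']
            rcases (lf_mem_old hj').1 hf with h0 | ⟨h0, -⟩
            · exact hR.leg φ h0
            · have h1 := hT.leg φ h0
              rw [hI.K j hj'] at h1
              exact ⟨h1.1.2, h1.2.1⟩ }
    · rw [lf_X_new hj', lf_K_new hj']
      exact
        { fin := hT.fin
          itb := hT.itb
          blx := hT.blx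
          dsx := hT.dsx
          rlx := hT.rlx
          fn := hT.fn
          leg := fun φ hf => ⟨(hT.leg φ hf).1.2, (hT.leg φ hf).2⟩ }
  · intro p q hE l hl hlp
    have hE' : t.E p q := hE
    have hl' : l ∈ (t.Z p q).L := hl
    have hpJ := htv.EJ p q hE'
    have hqJ := htv.EJ q p (htv.Es p q hE')
    by_cases hp : p ∈ r.J
    · rw [lf_K_old hp] at hlp
      by_cases hq : q ∈ r.J
      · rw [lf_K_old hq]
        have hEr : r.E p q := (hI.E p hp q hq).1 hE'
        rw [hI.Z p q hEr] at hl'
        exact hv.adm p q hEr l hl' hlp
      · rw [lf_K_new hq]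
        exact htv.adm p q hE' l hl' (hI.frL p hp q hq hE' l hl')
    · rw [lf_K_new hp] at hlp
      exact hI.K_le hqJ (htv.adm p q hE' l hl' hlp)
  · intro p q hE f hZ hf
    have hE' : t.E p q := hE
    have hZ' : (t.Z p q).Has f := hZ
    have hsym := htv.symZ p q
    by_cases hp : p ∈ r.J
    · by_cases hq : q ∈ r.J
      · have hEr : r.E p q := (hI.E p hp q hq).1 hE'
        have hZr := hI.Z p q hEr
        have hsr := hv.symZ p q
        rcases (lf_mem_old hp).1 hf with h0 | ⟨h0, hb⟩
        · rw [hZr] at hZ'
          exact (lf_mem_old hq).2 (Or.inl (hv.sh p q hEr f hZ' h0))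
        · refine (lf_mem_old hq).2 (Or.inr ⟨htv.sh p q hE' f hZ' h0, fun hbq => hb ?_⟩)
          rw [hZr] at hZ'
          cases f with
          | nd x => exact hbq
          | it x a v => exact hbq
          | bl x a =>
            refine ⟨hbq.1, hP.Wsh q p (hv.Es p q hEr) x ?_ hbq.2⟩
            rw [hv.symZ q p]; exact hZ'
          | ds x y =>
            rcases hbq with h1 | h1
            · refine Or.inl (hP.Wsh q p (hv.Es p q hEr) x ?_ h1)
              rw [hv.symZ q p]; exact hZ'.1
            · refine Or.inr (hP.Wsh q p (hv.Es p q hEr) y ?_ h1)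
              rw [hv.symZ q p]; exact hZ'.2
          | pr φ => exact hbq
          | rl φ a => exact hbq
      · rw [lf_X_new hq]
        refine htv.sh p q hE' f hZ' ?_
        rcases (lf_mem_old hp).1 hf with h0 | ⟨h0, -⟩
        · refine hI.old hp h0 ?_
          have key : ∀ φ : Prom, φ ∈ (t.Z p q).Q → φ.lab ∈ lowK r k s p := by
            intro φ hφ
            have h1 := (htv.good p q hE').z3 φ hφ
            have h2 : φ.lab ∈ (t.Z p q).L := by
              cases φ with
              | nil a => exact h1
              | mk a c nd lb R => exact h1.1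
            have h3 := hI.frL p hp q hq hE' _ h2
            rw [hI.K p hp] at h3
            exact h3
          cases f with
          | nd x => trivial
          | it x a v => trivial
          | bl x a => trivial
          | ds x y => trivial
          | pr φ => exact key φ hZ'
          | rl φ a => exact key φ hZ'
        · exact h0
    · rw [lf_X_new hp] at hf
      have h1 := htv.sh p q hE' f hZ' hf
      refine Inv.to_lift h1 fun hq hb => ?_
      have hEq : t.E q p := htv.Es p q hE'
      cases f with
      | nd x => exact hb
      | it x a v => exact hb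
      | bl x a =>
        refine hI.frN q hq p hp hEq x ?_ hb.2
        rw [htv.symZ q p]; exact hZ'
      | ds x y =>
        rcases hb with h2 | h2
        · refine hI.frN q hq p hp hEq x ?_ h2
          rw [htv.symZ q p]; exact hZ'.1
        · refine hI.frN q hq p hp hEq y ?_ h2
          rw [htv.symZ q p]; exact hZ'.2
      | pr φ => exact hb
      | rl φ a => exact hb

/-- nodes of the events of a promise whose label is in the lowered level are not protected -/
theorem ev_node (hP : Plan r s0 s Q W) (hj : j ∈ r.J) {φ : Prom} (hφ : Legal φ)
    (hK : φ.lab ∈ lowK r k s j) {m' : ℕ} {e : Sys Prom} (he : Ev φ m' e) {a : ℕ} {x : Node}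
    {Z : Fr Prom} (hZ : (∀ m e, Ev φ m e → ContIn e Z) ∧ ∀ x ∈ Z.N, x.Free φ.lab)
    (hx : x ∈ Z.N) : x ∉ W j := by
  intro hxW
  obtain ⟨-, -, ν, d, h1, h2⟩ := hK
  have h3 := hP.Wle j hj x hxW ν d h1
  exact hZ.2 x hx ν d h3 h2.le

/-- V-C2 -/
theorem liftExt : SLiftExt := by
  intro r s0 s Q W k i m t t' hv hP hi hI hI' h
  exact
    { n := h.n
      rt := rfl
      J := h.J
      E := h.E
      K := by
        intro j hj
        by_cases hj' : j ∈ r.J
        · rw [lf_K_old hj', lf_K_old hj']
        · rw [lf_K_new hj', lf_K_new hj']
          exact h.K j hj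
      Z := h.Z
      X := by
        intro j hj
        constructor
        · intro f hf
          by_cases hj' : j ∈ r.J
          · rcases (lf_mem_old hj').1 hf with h0 | ⟨h0, hb⟩
            · exact (lf_mem_old hj').2 (Or.inl h0)
            · exact (lf_mem_old hj').2 (Or.inr ⟨(h.X j hj).sub h0, hb⟩)
          · rw [lf_X_new hj'] at hf ⊢
            exact (h.X j hj).sub hf
        · intro x m' v hx hf
          have h1 := hI'.of_lift hf fun _ => trivial
          have h2 := hI.of_lift hx fun _ => trivial
          exact Inv.to_lift ((h.X j hj).it x m' v h2 h1) fun _ h' => h'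
      rel := by
        intro j hj φ hφ m' hf hnf
        have hjt : j ∈ t.J := hj
        have hjt' : j ∈ t'.J := h.J hjt
        have h1 : .rl φ m' ∈ t'.X j := by
          by_cases hj' : j ∈ r.J
          · rcases (lf_mem_old hj').1 hf with h0 | ⟨h0, -⟩
            · exact absurd ((lf_mem_old hj').2 (Or.inl h0)) hnf
            · exact h0
          · rw [lf_X_new hj'] at hf
            exact hf
        have h2 := (hI'.val.val j hjt').rlx φ m' h1
        have h3 : .rl φ m' ∉ t.X j := fun h0 => hnf (Inv.to_lift h0 fun _ h' => h')
        have h4 : .pr φ ∈ t.X j := by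
          rcases hI.pr_lift hφ with h0 | ⟨hj', h0, h5⟩
          · exact h0
          · exfalso
            apply h5
            rw [hI.K j hj', ← hI'.K j hj']
            exact ((hI'.val.val j hjt').leg φ h2).2
        obtain ⟨e, ρ, hev, hemb⟩ := h.rel j hjt φ h4 m' h1 h3
        have hleg := ((hI.val.val j hjt).leg φ h4)
        obtain ⟨Z, -, -, hZf, hZe⟩ := ((legal_iff φ).1 hleg.1.2).fr
        have hok := hZe m' e hev
        refine ⟨e, ρ, hev, ?_⟩
        exact
          { n := hemb.n
            rt := hemb.rt
            J := hemb.J
            inj := hemb.inj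
            new := hemb.new
            E := hemb.E
            E' := hemb.E'
            K := by
              intro a ha har
              have hn : ρ a ∉ r.J := fun h0 => hemb.new a ha har (hI.J h0)
              rw [lf_K_new hn]
              exact hemb.K a ha har
            Z := hemb.Z
            X := by
              intro a ha
              by_cases har : a = e.rt
              · subst har
                rw [hemb.rt]
                have hX := hemb.X e.rt ha
                rw [hemb.rt] at hX
                constructor
                · constructor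
                  · intro g hg
                    refine Inv.to_lift (hX.sub hg) fun hj' hb => ?_
                    have hK := hleg.2
                    rw [hI.K j hj'] at hK
                    have hfree : ∀ x ∈ Z.N, x ∉ W j := by
                      intro x hx hxW
                      obtain ⟨-, -, ν, d, h5, h6⟩ := hK
                      exact hZf x hx ν d (hP.Wle j hj' x hxW ν d h5) h6.le
                    have hin := hok.2.X e.rt g hg
                    cases g with
                    | nd x => exact hb
                    | it x a v => exact hb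
                    | bl x a => exact hfree x hin hb.2
                    | ds x y =>
                      rcases hb with h7 | h7
                      · exact hfree x hin.1 h7
                      · exact hfree y hin.2 h7
                    | pr ψ => exact hb
                    | rl ψ a => exact hb
                  · intro x a v hx hg
                    exact hX.it x a v hx (hI'.of_lift hg fun _ => trivial)
                · intro ψ a hψ hg
                  exact hX.rl ψ a hψ (hI'.rl_lift (hX.sub hψ) hg)
              · have hn : ρ a ∉ r.J := fun h0 => hemb.new a ha har (hI.J h0)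
                rw [lf_X_new hn]
                exact hemb.X a ha } }

/-- V-C3 -/
theorem liftTime : SLiftTime := by
  intro r s0 s Q W k i m m' C t t' hv hP hi hI hI' h
  have hnd : ∀ j, ∀ x ∈ C j, .nd x ∈ t.X j := by
    intro j x hx
    rcases h.cone j with h0 | ⟨-, s, -, hs⟩
    · rw [h0] at hx; exact hx.elim
    · exact ((hs x).1 hx).1
  have hndt : ∀ j x, .nd x ∈ (lift r W m t).X j ↔ .nd x ∈ t.X j := by
    intro j x
    exact ⟨fun h => hI.of_lift h fun _ => trivial, fun h => Inv.to_lift h fun _ h' => h'⟩
  exact
    { n := h.n
      rt := rfl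
      J := h.J
      E := h.E
      K := by
        funext j
        by_cases hj' : j ∈ r.J
        · rw [lf_K_old hj', lf_K_old hj']
        · rw [lf_K_new hj', lf_K_new hj', h.K]
      Z := h.Z
      X := by
        intro j f
        by_cases hj' : j ∈ r.J
        · rw [lf_mem_old hj', lf_mem_old hj', h.X j f]
          constructor
          · rintro (h0 | ⟨h0 | h0, hb⟩)
            · exact Or.inl (Or.inl h0)
            · exact Or.inl (Or.inr ⟨h0, hb⟩)
            · exact Or.inr h0
          · rintro ((h0 | ⟨h0, hb⟩) | h0)
            · exact Or.inl h0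
            · exact Or.inr ⟨Or.inl h0, hb⟩
            · refine Or.inr ⟨Or.inr h0, fun hb => ?_⟩
              obtain ⟨x, hx, rfl | rfl⟩ := h0
              · exact hb
              · obtain ⟨hm, hxW⟩ := hb
                have h1 := hI.nd j hj' x (hnd j x hx) hxW
                have h2 := hI.bl hj' h1
                exact h.free j x hx (hm ▸ h2)
        · rw [lf_X_new hj', lf_X_new hj']
          exact h.X j f
      cone := by
        intro j
        rcases h.cone j with h0 | ⟨hj, s', hs', hC⟩
        · exact Or.inl h0
        · refine Or.inr ⟨hj, s', fun ν d hd => hI.K_le hj (hs' ν d hd), fun x => ?_⟩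
          rw [hC x, hndt j x]
      sh := h.sh
      mn := h.mn
      free := by
        intro j x hx hb
        exact h.free j x hx (hI.of_lift hb fun _ => trivial)
      tok := by
        intro j x hx y hy hyC hds v hi
        refine h.tok j x hx y ((hndt j y).1 hy) hyC ?_ v (hI.of_lift hi fun _ => trivial)
        rcases hds with h0 | h0
        · exact Or.inl (hI.of_lift h0 fun _ => trivial)
        · exact Or.inr (hI.of_lift h0 fun _ => trivial)
      rel := by
        intro j φ hφ x hx y hy hyC d hB hd
        have hy' := (hndt j y).1 hy
        rcases hI.pr_lift hφ with h0 | ⟨hj', h0, h5⟩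
        · exact Inv.to_lift (h.rel j φ h0 x hx y hy' hyC d hB hd) fun _ h' => h'
        · exfalso
          rcases h.cone j with h1 | ⟨hj, s', hs', hC⟩
          · rw [h1] at hx; exact hx
          · apply h5
            obtain ⟨ν, hν1, hν2, hν3⟩ := hB
            have hsx := ((hC x).1 hx).2
            have hsν : s'.f ν = some d := by
              by_contra hne
              apply hyC
              refine (hC y).2 ⟨hy', fun μ e hμ => ?_⟩
              have hxμ := hsx μ e hμ
              rcases lt_trichotomy μ ν with hlt | heq | hgt
              · rw [← hν1 μ hlt]; exact hxμ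
              · subst heq
                rw [hν2] at hxμ
                rw [hμ, hxμ] at hne
                exact absurd rfl hne
              · exfalso
                have h2 : s'.f ν ≠ none := s'.dc ν μ hgt.le (by rw [hμ]; exact Option.some_ne_none _)
                cases hs : s'.f ν with
                | none => exact h2 hs
                | some e' =>
                  have h3 := hsx ν e' hs
                  rw [hν2] at h3
                  rw [hs, h3] at hne
                  exact hne rfl
            have h6 := hs' ν d hsν
            have hlow := hI.val.low j hj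
            exact hlow hd h6 }

end

end Pool.Agent.DL.P.V
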