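import Pool.Agent.DL.P.V.Stm

/-!
# DELTA (MP_d362fb_lc), Lemma V, row V-C1: the lift of a system of the sequence is valid
-/

set_option autoImplicit false

namespace Pool.Agent.DL.P.V

open H5.DL

theorem LiftVal.in_lab {Z : Fr Prom} {φ : Prom} (h : φ.In Z) : φ.lab ∈ Z.L := by
  cases φ with
  | nil k => exact h
  | mk k c nd lb R => exact h.1

theorem LiftVal.wsh {r : Sys Prom} {s0 : Node} {s : ℕ → Node} {Q : Set ℕ} {W : ℕ → Set Node}
    (hv : Valid Legal r) (hP : Plan r s0 s Q W) {p q : ℕ} (hE : r.E p q) {y : Node}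
    (hy : y ∈ (r.Z p q).N) : y ∈ W p ↔ y ∈ W q :=
  ⟨hP.Wsh p q hE y hy, hP.Wsh q p (hv.Es p q hE) y (by rw [← hv.symZ]; exact hy)⟩

/-- a fact of `r` at a new neighbour of an old component does not mention a dropped promise -/
theorem LiftVal.keep {K : Set D} {Z : Fr Prom} (hg : Good Z) {f : Fact Prom} (hf : Z.Has f)
    (hZ : ∀ l ∈ Z.L, l ∈ K) : Keep K f := by
  cases f with
  | nd x => trivial
  | it x u v => trivial
  | bl x u => trivial
  | ds x y => trivial
  | pr φ => exact hZ _ (LiftVal.in_lab (hg.z3 φ hf))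
  | rl φ u => exact hZ _ (LiftVal.in_lab (hg.z3 φ hf))

theorem sliftVal : SLiftVal := by
  intro r s0 s Q W k i m t hv hP hi hI
  have hold : ∀ {j}, j ∈ r.J → (lift r W m t).K j = r.K j := fun hj => if_pos hj
  have hnew : ∀ {j}, j ∉ r.J → (lift r W m t).K j = t.K j := fun hj => if_neg hj
  have hXold : ∀ {j}, j ∈ r.J →
      (lift r W m t).X j = r.X j ∪ {f | f ∈ t.X j ∧ ¬ Bad W m j f} := fun hj => if_pos hj
  have hXnew : ∀ {j}, j ∉ r.J → (lift r W m t).X j = t.X j := fun hj => if_neg hj
  have hlow : ∀ j ∈ r.J, t.K j ⊆ r.K j := by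
    intro j hj l hl
    rw [hI.K j hj] at hl
    exact hl.1
  -- facts of `r` which are not promise facts are facts of `t`
  have hrt : ∀ j ∈ r.J, ∀ f, f ∈ r.X j → Keep (lowK r k s j) f → f ∈ t.X j := fun j hj f hf hk =>
    hI.X j hj (Or.inl ⟨hf, hk⟩)
  refine ⟨hI.val.fin, hI.J hv.rt, hI.val.Es, hI.val.EJ, hI.val.forest, ?_, hI.val.symZ,
    hI.val.good, ?_, hI.val.nZ, ?_, ?_, ?_⟩
  · -- low
    intro j hj
    by_cases hr : j ∈ r.J
    · rw [hold hr]; exact hv.low j hr
    · rw [hnew hr]; exact hI.val.low j hj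
  · -- nX
    intro j hj
    have h2 : j ∉ r.J := fun hr => hj (hI.J hr)
    rw [hXnew h2]
    exact hI.val.nX j hj
  · -- val
    intro j hj
    have ht := hI.val.val j hj
    by_cases hr : j ∈ r.J
    · have hrv := hv.val j hr
      rw [hXold hr, hold hr]
      refine ⟨?_, ?_, ?_, ?_, ?_, ?_, ?_⟩
      · exact hrv.fin.union (ht.fin.subset fun f hf => hf.1)
      · rintro x u v (hf | hf)
        · exact ⟨Or.inl (hrv.itb x u v hf).1, lt_of_lt_of_le (hrv.itb x u v hf).2 hI.n⟩
        · obtain ⟨h1, h2⟩ := ht.itb x u v hf.1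
          refine ⟨?_, h2⟩
          by_cases hb : Bad W m j (.bl x u)
          · obtain ⟨rfl, hx⟩ := hb
            have h3 := hI.nd j hr x (ht.blx x u h1) hx
            exact Or.inl (hrv.itb x u v (hI.it j hr x h3 v hf.1)).1
          · exact Or.inr ⟨h1, hb⟩
      · rintro x u (hf | hf)
        · exact Or.inl (hrv.blx x u hf)
        · exact Or.inr ⟨ht.blx x u hf.1, fun h => h⟩
      · rintro x y (hf | hf)
        · exact ⟨Or.inl (hrv.dsx x y hf).1, Or.inl (hrv.dsx x y hf).2⟩
        · exact ⟨Or.inr ⟨(ht.dsx x y hf.1).1, fun h => h⟩,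
            Or.inr ⟨(ht.dsx x y hf.1).2, fun h => h⟩⟩
      · rintro φ u (hf | hf)
        · exact Or.inl (hrv.rlx φ u hf)
        · exact Or.inr ⟨ht.rlx φ u hf.1, fun h => h⟩
      · rintro x u v v' (hf | hf) (hf' | hf')
        · exact hrv.fn x u v v' hf hf'
        · exact ht.fn x u v v' (hrt j hr _ hf trivial) hf'.1
        · exact ht.fn x u v v' hf.1 (hrt j hr _ hf' trivial)
        · exact ht.fn x u v v' hf.1 hf'.1
      · rintro φ (hf | hf)
        · exact hrv.leg φ hf
        · obtain ⟨h1, h2⟩ := ht.leg φ hf.1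
          exact ⟨h1.2, hlow j hr h2⟩
    · rw [hXnew hr, hnew hr]
      refine ⟨ht.fin, ht.itb, ht.blx, ht.dsx, ht.rlx, ht.fn, ?_⟩
      intro φ hf
      obtain ⟨h1, h2⟩ := ht.leg φ hf
      exact ⟨h1.2, h2⟩
  · -- adm
    intro p q hE l hl hp
    by_cases hpr : p ∈ r.J
    · by_cases hqr : q ∈ r.J
      · rw [hold hpr] at hp
        rw [hold hqr]
        have hE' : r.E p q := (hI.E p hpr q hqr).1 hE
        exact hv.adm p q hE' l (by rw [← hI.Z p q hE']; exact hl) hp
      · rw [hnew hqr]
        exact hI.val.adm p q hE l hl (hI.frL p hpr q hqr hE l hl)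
    · by_cases hqr : q ∈ r.J
      · rw [hold hqr]
        have hE' := hI.val.Es p q hE
        exact hlow q hqr (hI.frL q hqr p hpr hE' l (by rw [hI.val.symZ]; exact hl))
      · rw [hnew hqr]
        rw [hnew hpr] at hp
        exact hI.val.adm p q hE l hl hp
  · -- sh
    intro p q hE f hf hfp
    by_cases hpr : p ∈ r.J
    · rw [hXold hpr] at hfp
      by_cases hqr : q ∈ r.J
      · rw [hXold hqr]
        have hE' : r.E p q := (hI.E p hpr q hqr).1 hE
        have hf' : (r.Z p q).Has f := by rw [← hI.Z p q hE']; exact hf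
        rcases hfp with hfp | ⟨hfp, hb⟩
        · exact Or.inl (hv.sh p q hE' f hf' hfp)
        · refine Or.inr ⟨hI.val.sh p q hE f hf hfp, fun hb' => hb ?_⟩
          cases f with
          | nd x => exact hb'
          | it x u v => exact hb'
          | bl x u => exact ⟨hb'.1, (LiftVal.wsh hv hP hE' hf').2 hb'.2⟩
          | ds x y =>
            exact hb'.imp (LiftVal.wsh hv hP hE' hf'.1).2 (LiftVal.wsh hv hP hE' hf'.2).2
          | pr φ => exact hb'
          | rl φ u => exact hb'
      · rw [hXnew hqr]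
        rcases hfp with hfp | ⟨hfp, hb⟩
        · have hk : Keep (lowK r k s p) f := by
            rw [← hI.K p hpr]
            exact LiftVal.keep (hI.val.good p q hE) hf (hI.frL p hpr q hqr hE)
          exact hI.val.sh p q hE f hf (hrt p hpr f hfp hk)
        · exact hI.val.sh p q hE f hf hfp
    · rw [hXnew hpr] at hfp
      by_cases hqr : q ∈ r.J
      · rw [hXold hqr]
        refine Or.inr ⟨hI.val.sh p q hE f hf hfp, fun hb => ?_⟩
        have hE' := hI.val.Es p q hE
        have hN := hI.frN q hqr p hpr hE'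
        rw [hI.val.symZ] at hN
        cases f with
        | nd x => exact hb
        | it x u v => exact hb
        | bl x u => exact hN x hf hb.2
        | ds x y =>
          rcases hb with hb | hb
          · exact hN x hf.1 hb
          · exact hN y hf.2 hb
        | pr φ => exact hb
        | rl φ u => exact hb
      · rw [hXnew hqr]
        exact hI.val.sh p q hE f hf hfp

end Pool.Agent.DL.P.V
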