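import Pool.Agent.DL.P.V.Stm

/-!
# DELTA, row V-D: the plan persists
-/

set_option autoImplicit false

namespace Pool.Agent.DL.P.V

open H5.DL

open Classical in
theorem spersist : SPersist := by
  intro Lg r t s0 s Q W hr ht hP hA
  obtain ⟨anc, ha1, ha2, ha3⟩ := hA.anc
  obtain ⟨s', hs'⟩ : ∃ s' : ℕ → Node, s' = fun q => if q ∈ r.J then s q else s (anc q) :=
    ⟨_, rfl⟩
  obtain ⟨W', hW'⟩ : ∃ W' : ℕ → Set Node, W' = fun q => if q ∈ r.J then W q else ∅ := ⟨_, rfl⟩
  have hold : ∀ q ∈ r.J, s' q = s q := fun q hq => by rw [hs']; exact if_pos hq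
  have hnew : ∀ q, q ∉ r.J → s' q = s (anc q) := fun q hq => by rw [hs']; exact if_neg hq
  have hWo : ∀ q ∈ r.J, W' q = W q := fun q hq => by rw [hW']; exact if_pos hq
  have hWn : ∀ q, q ∉ r.J → W' q = ∅ := fun q hq => by rw [hW']; exact if_neg hq
  have hJ : ∀ p q, t.E p q → q ∈ t.J := fun p q h => ht.EJ q p (ht.Es p q h)
  refine ⟨s', W', ?_, fun q hq => ⟨hold q hq, hWo q hq⟩, fun q _ hq => hWn q hq⟩
  refine
    { rt := by rw [hA.rt]; exact hP.rt
      s0 := by rw [hA.rt, hold _ (hP.QJ _ hP.rt)]; exact hP.s0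
      QJ := fun q hq => hA.J (hP.QJ q hq)
      lab := fun q hq => by
        rw [hA.K q (hP.QJ q hq), hold q (hP.QJ q hq)]
        exact hP.lab q hq
      WQ := fun q hq y => by
        rw [hWo q (hP.QJ q hq), hold q (hP.QJ q hq)]
        exact hP.WQ q hq y
      Wle := ?_
      Wsh := ?_
      Wout := ?_
      adm := ?_ }
  · intro q _ y hy
    by_cases h : q ∈ r.J
    · rw [hWo q h] at hy
      rw [hold q h]
      exact hP.Wle q h y hy
    · rw [hWn q h] at hy
      exact absurd hy (Set.notMem_empty y)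
  · intro p q hE y hy hyW
    by_cases hp : p ∈ r.J
    · rw [hWo p hp] at hyW
      by_cases hq : q ∈ r.J
      · have hE' := (hA.E p hp q hq).1 hE
        rw [hA.Z p q hE'] at hy
        rw [hWo q hq]
        exact hP.Wsh p q hE' y hy hyW
      · exact absurd hyW (hA.frN p hp q hq hE y hy)
    · rw [hWn p hp] at hyW
      exact absurd hyW (Set.notMem_empty y)
  · intro q _ hqQ y hy hyW
    by_cases h : q ∈ r.J
    · rw [hWo q h] at hyW
      exact hP.Wout q h hqQ y (hA.nd q h y hy hyW) hyW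
    · rw [hWn q h] at hyW
      exact absurd hyW (Set.notMem_empty y)
  · intro p q hE l hl hlK hup
    by_cases hp : p ∈ r.J
    · rw [hold p hp] at hup
      by_cases hq : q ∈ r.J
      · have hE' := (hA.E p hp q hq).1 hE
        rw [hA.Z p q hE'] at hl
        rw [hA.K p hp] at hlK
        rw [hold q hq]
        exact hP.adm p q hE' l hl hlK hup
      · rw [hnew q hq, ha3 p hp q hq hE]
        exact hup
    · rw [hnew p hp] at hup
      by_cases hq : q ∈ r.J
      · rw [hold q hq, ← ha3 q hq p hp (ht.Es p q hE)]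
        exact hup
      · rw [hnew q hq, ← ha2 p q hp hq hE]
        exact hup

end Pool.Agent.DL.P.V
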