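import Pool.Agent.DL.P.V.Stm
import Pool.Agent.H20.DL.PlanEx

/-!
# DELTA (MP_d362fb_lc): Lemma V, row V-A, the plan exists
-/

set_option autoImplicit false

namespace Pool.Agent.DL.P.V

open H5.DL

/-- protected nodes outside `Q` are not present -/
theorem prot_absent {Lg : Prom → Prop} {r : Sys Prom} (hv : Valid Lg r) {b : ℕ} {s0 : Node}
    {s : ℕ → Node} {Q : ℕ → Prop} (hP : P.Plan r b s0 s Q) {q : ℕ} {y : Node}
    (h : Prot r s Q q y) : ¬ Q q → .nd y ∉ r.X q := by
  induction h with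
  | base hQ _ => exact fun h => (h hQ).elim
  | @edge p q y hp hE hy hq ih =>
    intro _ hX
    have hXp : .nd y ∈ r.X p := hv.sh q p (hv.Es p q hE) (.nd y) (hv.symZ p q ▸ hy) hX
    by_cases hQp : Q p
    · rcases hP.edge p q hE with h | h
      · rcases h with ⟨-, h, -⟩ | ⟨-, -, h⟩
        · exact hq h
        · exact h hQp y hy hXp (hp.le hP)
      · rcases h with ⟨h, -⟩ | ⟨h, -⟩
        · exact hq h
        · exact h hQp
    · exact ih hQp hXp

/-- V-A -/
theorem splan : SPlan := by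
  intro Lg r s0 hv hs
  obtain ⟨s, Q, hP⟩ := P.Plan.ex hv hv.rt hs
  refine ⟨s, {q | Q q}, fun q => {y | Prot r s Q q y}, ?_⟩
  exact {
    rt := hP.baseQ
    s0 := hP.bases
    QJ := hP.QJ
    lab := hP.lab
    WQ := fun q hq y => ⟨fun h => Prot.le hP h, fun h => Prot.base hq h⟩
    Wle := fun q _ y hy => Prot.le hP hy
    Wsh := fun p q hE y hy h => Prot.share hv hP hE hy h
    Wout := fun q _ hq y hy h => prot_absent hv hP h hq hy
    adm := by
      intro p q hE l hl hK hU
      obtain ⟨k, hk⟩ := exists_ll idx {l} (Set.countable_singleton l)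
      have hlk := hk l rfl
      exact ((hP.star_adm hv k hE l hl).1 ⟨hK, hlk, hU⟩).2.2 }

end Pool.Agent.DL.P.V
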