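import Pool.Agent.DL.P.V.Stm
import Pool.Agent.DL.P.KeptV

/-!
# DELTA: row V-R, Lemma R in the form used in Lemma V
-/

set_option autoImplicit false

namespace Pool.Agent.DL.P.V

open H5.DL

theorem stepsIn_rt {Lg : Prom → Prop} {K : Set D} {r t : Sys Prom} (h : StepsIn Lg K r t) :
    t.rt = r.rt := by
  induction h with
  | refl => rfl
  | tail _ h ih => exact h.1.mono.rt.trans ih

/-- V-R -/
theorem sr : SR := by
  classical
  intro Lg K r t1 T WN WQ hLg hv hB hS hT hC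
  have hrt1 : t1.rt = r.rt := stepsIn_rt hS
  obtain ⟨t2, A, h1, h2, h3, h4, h5, h6⟩ := lemR_V hLg hv hB hS T (by rw [hrt1]; exact hT)
    (fun f hf => by
      cases f with
      | nd x => exact hf
      | it x m v => exact hC.t2 x m v hf
      | bl x m => exact hC.t1 x m hf
      | ds x y => exact hC.t3 x y hf
      | pr ψ => exact hf
      | rl ψ m => exact hC.t4 ψ m hf)
    WN WQ hC.rN hC.rQ hC.tN hC.tQ
    (fun j hj ψ hψ hl _ m e he => ⟨fun x hx => hC.eN j hj ψ hψ (hLg ψ hl) m e he x hx,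
      fun χ hχ => hC.eQ j hj ψ hψ (hLg ψ hl) m e he χ hχ,
      fun a ha => ⟨fun y hy => hC.fN j hj ψ hψ (hLg ψ hl) m e he a ha y hy,
        fun χ hχ => hC.fQ j hj ψ hψ (hLg ψ hl) m e he a ha χ hχ⟩⟩)
    hC.sN hC.sQ
  have hst : StepsIn Lg K r t2 := by
    exact Relation.ReflTransGen.mono (fun a b h => ⟨h.1, h.2.1⟩) _ _ h1
  have hrt2 : t2.rt = r.rt := stepsIn_rt hst
  refine ⟨t2, ?_, h2, h3, by rw [← hrt2]; exact h4, fun q => if A q ∈ r.J then A q else r.rt,
    ?_, ?_, ?_⟩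
  · refine Relation.ReflTransGen.mono ?_ _ _ h1
    rintro a b ⟨ha, hb, hc⟩
    refine ⟨ha, hb, hc.x, hc.q, fun j hj q hq hE => ?_⟩
    obtain ⟨ψ, m, e, a', h7, _, h8, h9, h10⟩ := hc.e j hj q hq hE
    exact ⟨ψ, m, e, a', h7, h8, h9, h10⟩
  · intro q _ _
    show (if A q ∈ r.J then A q else r.rt) ∈ r.J
    by_cases h : A q ∈ r.J
    · rw [if_pos h]; exact h
    · rw [if_neg h]; exact hv.rt
  · intro q q' hq _ hE
    show (if A q ∈ r.J then A q else r.rt) = (if A q' ∈ r.J then A q' else r.rt)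
    rw [h6 q q' hE (Or.inl hq)]
  · intro j hj q hq hE
    show (if A q ∈ r.J then A q else r.rt) = j
    have h7 : A q = j := by
      rw [← h6 j q hE (Or.inr hq)]
      exact h5 j hj
    rw [h7, if_pos hj]

end Pool.Agent.DL.P.V
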