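import Pool.Agent.DL.P.V.LiftVal

/-!
# DELTA (MP_d362fb_lc), Lemma V, row V-B: the star system is a valid system of `P_k`
-/

set_option autoImplicit false

namespace Pool.Agent.DL.P.V

open H5.DL

theorem Star.up_le {l l' : D} {s : Node} (h : l ≤ l') (h' : Up l' s) : Up l s := by
  obtain ⟨ν, d, h1, h2⟩ := h'
  exact ⟨ν, d, h1, Ll.of_le h h2⟩

theorem Star.low_adm {r : Sys Prom} {s0 : Node} {s : ℕ → Node} {Q : Set ℕ} {W : ℕ → Set Node}
    (hv : Valid Legal r) (hP : Plan r s0 s Q W) (k : D) {p q : ℕ} (hE : r.E p q) :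
    ∀ l ∈ (r.Z p q).L, l ∈ lowK r k s p → l ∈ lowK r k s q := by
  rintro l hl ⟨h1, h2, h3⟩
  exact ⟨hv.adm p q hE l hl h1, h2, hP.adm p q hE l hl h1 h3⟩

theorem Star.keep_sh {r : Sys Prom} {s0 : Node} {s : ℕ → Node} {Q : Set ℕ} {W : ℕ → Set Node}
    (hv : Valid Legal r) (hP : Plan r s0 s Q W) (k : D) {p q : ℕ} (hE : r.E p q) {f : Fact Prom}
    (hf : (r.Z p q).Has f) (hk : Keep (lowK r k s p) f) : Keep (lowK r k s q) f := by
  have hg := hv.good p q hE
  cases f with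
  | nd x => trivial
  | it x u v => trivial
  | bl x u => trivial
  | ds x y => trivial
  | pr φ => exact Star.low_adm hv hP k hE _ (LiftVal.in_lab (hg.z3 φ hf)) hk
  | rl φ u => exact Star.low_adm hv hP k hE _ (LiftVal.in_lab (hg.z3 φ hf)) hk

theorem star_valid {r : Sys Prom} {s0 : Node} {s : ℕ → Node} {Q : Set ℕ} {W : ℕ → Set Node}
    (hv : Valid Legal r) (hP : Plan r s0 s Q W) (k : D) {i : ℕ} (hi : i ∈ r.J) (m : ℕ) :
    Valid (LgB k) (star r k i s m) where
  fin := hv.fin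
  rt := hi
  Es := hv.Es
  EJ := hv.EJ
  forest := hv.forest
  low := by
    rintro j hj l l' hl ⟨h1, h2, h3⟩
    exact ⟨hv.low j hj hl h1, Ll.of_le hl h2, Star.up_le hl h3⟩
  symZ := hv.symZ
  good := hv.good
  nX := by
    intro j hj
    have h1 := hv.nX j hj
    ext f
    constructor
    · rintro (hf | ⟨x, hx, -⟩)
      · rw [h1] at hf; exact hf.1
      · rw [h1] at hx; exact hx
    · intro hf; exact hf.elim
  nZ := hv.nZ
  val := by
    intro j hj
    have hv := hv.val j hj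
    refine ⟨?_, ?_, ?_, ?_, ?_, ?_, ?_⟩
    · have : (star r k i s m).X j ⊆ r.X j ∪ (fun f : Fact Prom => match f with
          | .nd x => Fact.bl x m
          | f => f) '' r.X j := by
        rintro f (hf | ⟨x, hx, rfl⟩)
        · exact Or.inl hf.1
        · exact Or.inr ⟨_, hx, rfl⟩
      exact (hv.fin.union (hv.fin.image _)).subset this
    · rintro x u v (hf | ⟨y, hy, hf⟩)
      · exact ⟨Or.inl ⟨(hv.itb x u v hf.1).1, trivial⟩, (hv.itb x u v hf.1).2⟩
      · cases hf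
    · rintro x u (hf | ⟨y, hy, hf⟩)
      · exact Or.inl ⟨hv.blx x u hf.1, trivial⟩
      · cases hf
        exact Or.inl ⟨hy, trivial⟩
    · rintro x y (hf | ⟨z, hz, hf⟩)
      · exact ⟨Or.inl ⟨(hv.dsx x y hf.1).1, trivial⟩, Or.inl ⟨(hv.dsx x y hf.1).2, trivial⟩⟩
      · cases hf
    · rintro φ u (hf | ⟨z, hz, hf⟩)
      · exact Or.inl ⟨hv.rlx φ u hf.1, hf.2⟩
      · cases hf
    · rintro x u v v' (hf | ⟨z, hz, hf⟩) (hf' | ⟨z', hz', hf'⟩)
      · exact hv.fn x u v v' hf.1 hf'.1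
      · cases hf'
      · cases hf
      · cases hf
    · rintro φ (hf | ⟨z, hz, hf⟩)
      · obtain ⟨h1, h2, h3⟩ : φ.lab ∈ lowK r k s j := hf.2
        exact ⟨⟨h2, (hv.leg φ hf.1).1⟩, h1, h2, h3⟩
      · cases hf
  adm := fun p q hE => Star.low_adm hv hP k hE
  sh := by
    rintro p q hE f hf (hfp | ⟨x, hx, rfl⟩)
    · exact Or.inl ⟨hv.sh p q hE f hf hfp.1, Star.keep_sh hv hP k hE hf hfp.2⟩
    · exact Or.inr ⟨x, hv.sh p q hE (.nd x) hf hx, rfl⟩

theorem sstar : SStar := by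
  intro r s0 s Q W i m φ hv hP hi hφ hge
  have hiJ := hP.QJ i hi
  refine ⟨star_valid hv hP φ.lab hiJ m, ?_, ?_⟩
  · show lowK r φ.lab s i = dn φ.lab
    ext l
    constructor
    · rintro ⟨-, h2, -⟩; exact h2
    · intro hl
      obtain ⟨ν, d, h1, h2⟩ := hge
      exact ⟨hv.low i hiJ (Ll.le hl) ((hv.val i hiJ).leg φ hφ).2, hl, ν, d, h1,
        Ll.trans_le hl h2⟩
  · rintro j hj l ⟨-, h2, -⟩
    exact h2

/-- the first system of the lifted sequence is an extension of `r` (blocking at nodes which are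
not protected) -/
theorem ext_lift_star {r : Sys Prom} {s : ℕ → Node} {W : ℕ → Set Node}
    (k : D) (i m : ℕ) : Ext r (lift r W m (star r k i s m)) where
  n := rfl
  rt := rfl
  J := Set.Subset.rfl
  E := fun _ _ _ _ => Iff.rfl
  K := fun _ hj => if_pos hj
  Z := fun _ _ _ => rfl
  X := by
    intro j hj
    have hX : (lift r W m (star r k i s m)).X j =
      r.X j ∪ {f | f ∈ (star r k i s m).X j ∧ ¬ Bad W m j f} := if_pos hj
    refine ⟨?_, ?_⟩
    · rw [hX]; exact Set.subset_union_left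
    · intro x u v hx hf
      rw [hX] at hf
      rcases hf with hf | ⟨hf | ⟨y, hy, hf⟩, -⟩
      · exact hf
      · exact hf.1
      · cases hf
  rel := by
    intro j hj φ hφ u hf hn
    have hX : (lift r W m (star r k i s m)).X j =
      r.X j ∪ {f | f ∈ (star r k i s m).X j ∧ ¬ Bad W m j f} := if_pos hj
    rw [hX] at hf
    rcases hf with hf | ⟨hf | ⟨y, hy, hf⟩, -⟩
    · exact (hn hf).elim
    · exact (hn hf.1).elim
    · cases hf

end Pool.Agent.DL.P.V
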