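import Pool.Agent.DL.P.V.Stm
import Pool.Agent.DL.P.Kept

/-!
# DELTA: Lemma V from its parts (row V-I)
-/

namespace Pool.Agent.DL.P.V

open H5.DL

theorem vof_mono {Lg : Prom → Prop} {r r' : Sys Prom} (hr : Valid Lg r)
    (h : Steps Lg r r') : Mono r r' := by
  induction h with
  | refl => exact Mono.refl _
  | tail _ hs ih => exact ih.trans hr.EJ hr.Es hs.mono

theorem svOf : SVOf := by
  intro hplan hclear hmove hidle r hr s x hx hsx m hm
  obtain ⟨t0, h0c, h0s, h0n, h0rt, h0J, -, -, -, h0X⟩ := hidle r m hr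
  have hv0 := h0c.val
  obtain ⟨s1, Q1, W1, hP1⟩ := hplan Legal t0 s hv0 (by
    rw [h0c.top]
    exact fun _ _ _ => Set.mem_univ _)
  have hbl : ∀ j y, .bl y m ∉ t0.X j := by
    rw [h0X]
    exact hm
  have hit : ∀ j y v, .it y m v ∉ t0.X j := by
    intro j y v h
    by_cases hj : j ∈ t0.J
    · exact hbl j y ((hv0.val j hj).itb y m v h).1
    · rw [hv0.nX j hj] at h
      exact h
  have hF : FreeAt t0 W1 m :=
    ⟨h0n, fun j x _ _ => hbl j x, fun j _ y _ _ _ _ _ v => hit j y v⟩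
  obtain ⟨t1, s2, W2, h1c, h1s, hP2, hF2, h1rt, hO, h1old⟩ := hclear t0 s s1 Q1 W1 m h0c hP1 hF
  obtain ⟨t2, C, h2c, h2t, hC⟩ := hmove t1 s s2 Q1 W2 m h1c hP2 hF2 hO
  have hmo := vof_mono hr.val (h0s.trans h1s)
  have hrt : t1.rt = r.rt := hmo.rt
  refine ⟨t2, (h0s.trans h1s).tail ⟨h2c.val, Or.inr ⟨m, C, h2t⟩⟩, h2c, ⟨t1.n, ?_⟩, ?_⟩
  · rw [h2t.rt, h2t.X]
    refine Or.inr ⟨x, (hC x).2 ⟨?_, hsx⟩, Or.inl rfl⟩
    rw [hrt]
    exact hmo.X _ hr.val.rt hx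
  · intro y hy hsy v h
    rw [h2t.rt, h2t.X] at h
    rcases h with h | ⟨z, hz, h | h⟩
    · rw [hrt] at h
      have h3 : .nd y ∈ t0.X r.rt := by rw [h0X]; exact hy
      have h4 := h1old r.rt (h0J ▸ hr.val.rt) y v h3 h
      exact hit _ _ _ h4
    · cases h
      exact hsy ((hC y).1 hz).2
    · cases h

end Pool.Agent.DL.P.V
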