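import Pool.Agent.DL.P.V.Stm

/-!
# DELTA (MP_d362fb_lc), row V-G: the planned move
-/

set_option autoImplicit false

namespace Pool.Agent.DL.P.V

open H5.DL

/-- the label with which a node of the cone leaves a node outside is a label of the cone -/
theorem mv_br_of_cone {t x y : Node} {d : D} (h1 : t ≤ x) (h2 : ¬ t ≤ y) (h : Br x y d) :
    ∃ ν, t.f ν = some d := by
  obtain ⟨ν, h3, h4, h5⟩ := h
  refine ⟨ν, ?_⟩
  by_contra hne
  apply h2
  have hn : t.f ν = none := by
    cases hf : t.f ν with
    | none => rfl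
    | some e =>
      have := h1 ν e hf
      rw [h4] at this
      exact (hne (by rw [hf, this])).elim
  intro μ e he
  have hμ : μ < ν := by
    by_contra hμ
    exact t.dc ν μ (not_lt.1 hμ) (by rw [he]; exact Option.some_ne_none _) hn
  rw [← h3 μ hμ]
  exact h1 μ e he

/-- the cones of the planned move -/
def mC (r : Sys Prom) (W : ℕ → Set Node) (j : ℕ) : Set Node := {x | .nd x ∈ r.X j ∧ x ∈ W j}

/-- the system after the planned move -/
def mv (r : Sys Prom) (W : ℕ → Set Node) (m : ℕ) : Sys Prom where
  n := r.n + 1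
  rt := r.rt
  J := r.J
  E := r.E
  K := r.K
  Z := r.Z
  X := fun j => {f | f ∈ r.X j ∨ ∃ x ∈ mC r W j, f = .it x m r.n ∨ f = .bl x m}

/-- V-G: the planned move -/
theorem smove : SMove := by
  intro r s0 s Q W m hr hP hF hO
  have hv := hr.val
  have hCQ : ∀ j x, x ∈ mC r W j → j ∈ Q := by
    intro j x hx
    by_contra hj
    have hJ : j ∈ r.J := by
      by_contra hJ
      have := hx.1
      rw [hv.nX j hJ] at this
      exact this
    exact hP.Wout j hJ hj x hx.1 hx.2
  have hCsh : ∀ p q, r.E p q → ∀ x ∈ (r.Z p q).N, x ∈ mC r W p → x ∈ mC r W q :=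
    fun p q hE x hx hC => ⟨hv.sh p q hE (.nd x) hx hC.1, hP.Wsh p q hE x hx hC.2⟩
  have hval : Valid Legal (mv r W m) := by
    refine
      { fin := hv.fin
        rt := hv.rt
        Es := hv.Es
        EJ := hv.EJ
        forest := hv.forest
        low := hv.low
        symZ := hv.symZ
        good := hv.good
        nX := ?_
        nZ := hv.nZ
        val := ?_
        adm := hv.adm
        sh := ?_ }
    · intro j hj
      have h := hv.nX j hj
      apply Set.eq_empty_of_forall_notMem
      rintro f (hf | ⟨x, hx, -⟩)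
      · rw [h] at hf
        exact hf
      · have := hx.1
        rw [h] at this
        exact this
    · intro j hj
      have h := hv.val j hj
      refine
        { fin := ?_
          itb := ?_
          blx := ?_
          dsx := ?_
          rlx := ?_
          fn := ?_
          leg := ?_ }
      · have hinj : Function.Injective (fun x : Node => (Fact.nd x : Fact Prom)) :=
          fun a b h => Fact.nd.inj h
        have hC : (mC r W j).Finite :=
          (h.fin.preimage hinj.injOn).subset fun x hx => hx.1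
        have hsub : {f | f ∈ r.X j ∨ ∃ x ∈ mC r W j, f = .it x m r.n ∨ f = .bl x m} ⊆
            r.X j ∪ ((fun x : Node => (Fact.it x m r.n : Fact Prom)) '' mC r W j ∪
              (fun x : Node => (Fact.bl x m : Fact Prom)) '' mC r W j) := by
          rintro f (hf | ⟨x, hx, hf | hf⟩)
          · exact Or.inl hf
          · exact Or.inr (Or.inl ⟨x, hx, hf.symm⟩)
          · exact Or.inr (Or.inr ⟨x, hx, hf.symm⟩)
        exact (h.fin.union ((hC.image _).union (hC.image _))).subset hsub
      · rintro x m' v (hf | ⟨y, hy, hf | hf⟩)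
        · exact ⟨Or.inl (h.itb x m' v hf).1, Nat.lt_succ_of_lt (h.itb x m' v hf).2⟩
        · obtain ⟨rfl, rfl, rfl⟩ := Fact.it.inj hf
          exact ⟨Or.inr ⟨x, hy, Or.inr rfl⟩, Nat.lt_succ_self _⟩
        · cases hf
      · rintro x m' (hf | ⟨y, hy, hf | hf⟩)
        · exact Or.inl (h.blx x m' hf)
        · cases hf
        · obtain ⟨rfl, rfl⟩ := Fact.bl.inj hf
          exact Or.inl hy.1
      · rintro x y (hf | ⟨z, hz, hf | hf⟩)
        · exact ⟨Or.inl (h.dsx x y hf).1, Or.inl (h.dsx x y hf).2⟩
        · cases hf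
        · cases hf
      · rintro φ m' (hf | ⟨z, hz, hf | hf⟩)
        · exact Or.inl (h.rlx φ m' hf)
        · cases hf
        · cases hf
      · rintro x m' v v' (hf | ⟨y, hy, hf | hf⟩) (hg | ⟨z, hz, hg | hg⟩)
        · exact h.fn x m' v v' hf hg
        · obtain ⟨rfl, rfl, rfl⟩ := Fact.it.inj hg
          exact absurd (h.itb x m' v hf).1 (hF.fr j x hz.1 hz.2)
        · cases hg
        · obtain ⟨rfl, rfl, rfl⟩ := Fact.it.inj hf
          exact absurd (h.itb x m' v' hg).1 (hF.fr j x hy.1 hy.2)
        · obtain ⟨rfl, rfl, rfl⟩ := Fact.it.inj hf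
          obtain ⟨-, -, h3⟩ := Fact.it.inj hg
          exact h3.symm
        · cases hg
        · cases hf
        · cases hf
        · cases hf
      · rintro φ (hf | ⟨z, hz, hf | hf⟩)
        · exact h.leg φ hf
        · cases hf
        · cases hf
    · rintro p q hE f hf (hX | ⟨x, hx, hX | hX⟩)
      · exact Or.inl (hv.sh p q hE f hf hX)
      · subst hX
        exact Or.inr ⟨x, hCsh p q hE x hf hx, Or.inl rfl⟩
      · subst hX
        exact Or.inr ⟨x, hCsh p q hE x hf hx, Or.inr rfl⟩
  refine ⟨mv r W m, mC r W, ⟨hval, hr.top, hr.bdd⟩, ?_, ?_⟩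
  · refine
      { n := rfl
        rt := rfl
        J := rfl
        E := rfl
        K := rfl
        Z := rfl
        X := fun j f => Iff.rfl
        cone := ?_
        sh := hCsh
        mn := fun _ _ _ => hF.n
        free := fun j x hx => hF.fr j x hx.1 hx.2
        tok := ?_
        rel := ?_ }
    · intro j
      by_cases hj : j ∈ Q
      · refine Or.inr ⟨hP.QJ j hj, s j, hP.lab j hj, fun x => ?_⟩
        show .nd x ∈ r.X j ∧ x ∈ W j ↔ _
        rw [hP.WQ j hj x]
      · left
        apply Set.eq_empty_of_forall_notMem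
        intro x hx
        exact hj (hCQ j x hx)
    · intro j x hx y hy hyC hds v
      exact hF.tok j x y hx.1 hx.2 hy (fun h => hyC ⟨hy, h⟩) hds v
    · intro j φ hφ x hx y hy hyC d hBr hd
      by_contra hrl
      have hj := hCQ j x hx
      have h1 : s j ≤ x := (hP.WQ j hj x).1 hx.2
      have h2 : ¬ s j ≤ y := fun h => hyC ⟨hy, (hP.WQ j hj y).2 h⟩
      obtain ⟨ν, hν⟩ := mv_br_of_cone h1 h2 hBr
      have : (j, φ) ∈ Obs r s Q m := ⟨hj, hφ, hrl, ν, d, hν, hd⟩
      rw [hO] at this
      exact this
  · intro x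
    have h := hP.WQ r.rt hP.rt x
    rw [hP.s0] at h
    show .nd x ∈ r.X r.rt ∧ x ∈ W r.rt ↔ _
    rw [h]

end Pool.Agent.DL.P.V
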