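import Pool.Agent.DL.P.V.RoundA
import Pool.Agent.H84.DL.Perm

/-!
# DELTA (MP_d362fb_lc), Lemma V, row V-E: one round
-/

set_option autoImplicit false

namespace Pool.Agent.DL.P.V

open H5.DL

namespace Rd

/-- the allowed nodes of the restricted sequence -/
def WNr (r : Sys Prom) (W : ℕ → Set Node) (j : ℕ) : Set Node := {y | .nd y ∈ r.X j ∨ y ∉ W j}

/-- the allowed promises of the restricted sequence -/
def WQr (r : Sys Prom) (k : D) (s : ℕ → Node) (j : ℕ) : Set Prom := {ψ | ψ.lab ∈ lowK r k s j}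

/-- the families of the star system are closed -/
def SClo : Prop := ∀ (r : Sys Prom) (s0 : Node) (s : ℕ → Node) (Q : Set ℕ) (W : ℕ → Set Node)
  (i m : ℕ) (φ : Prom) (e : Sys Prom), Valid Legal r → Plan r s0 s Q W → i ∈ Q →
    .pr φ ∈ r.X i → Ge φ.lab (s i) → Valid (LgB φ.lab) (star r φ.lab i s m) → Ev φ m e →
    Clo (star r φ.lab i s m) (e.X e.rt) (WNr r W) (WQr r φ.lab s)

/-- the invariant holds at the beginning -/
def SInv0 : Prop := ∀ (r : Sys Prom) (s0 : Node) (s : ℕ → Node) (Q : Set ℕ) (W : ℕ → Set Node)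
  (i m : ℕ) (k : D), Valid Legal r → Plan r s0 s Q W →
    Valid (LgB k) (star r k i s m) → Below (dn k) (star r k i s m) →
    Inv r k i s W m (star r k i s m)

/-- the invariant is kept -/
def SInvStep : Prop := ∀ (r : Sys Prom) (s0 : Node) (s : ℕ → Node) (Q : Set ℕ)
  (W : ℕ → Set Node) (i m : ℕ) (k : D) (a b : Sys Prom), Valid Legal r → Plan r s0 s Q W →
    Inv r k i s W m a → Step (LgB k) a b → Below (dn k) b →
    InvR (star r k i s m) (WNr r W) (WQr r k s) b → Inv r k i s W m b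

section lift

variable {r : Sys Prom} {s0 : Node} {s : ℕ → Node} {Q : Set ℕ} {W : ℕ → Set Node} {k : D}
  {i m : ℕ}

theorem lift_K_old {t : Sys Prom} {j : ℕ} (hj : j ∈ r.J) : (lift r W m t).K j = r.K j :=
  if_pos hj

theorem lift_K_new {t : Sys Prom} {j : ℕ} (hj : j ∉ r.J) : (lift r W m t).K j = t.K j :=
  if_neg hj

theorem lift_X_old {t : Sys Prom} {j : ℕ} (hj : j ∈ r.J) :
    (lift r W m t).X j = r.X j ∪ {f | f ∈ t.X j ∧ ¬ Bad W m j f} := if_pos hj

theorem lift_X_new {t : Sys Prom} {j : ℕ} (hj : j ∉ r.J) : (lift r W m t).X j = t.X j :=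
  if_neg hj

/-- the first step of the lifted sequence -/
theorem ext_star : Ext r (lift r W m (star r k i s m)) where
  n := rfl
  rt := rfl
  J := fun _ h => h
  E := fun _ _ _ _ => Iff.rfl
  K := fun j hj => lift_K_old hj
  Z := fun _ _ _ => rfl
  X := by
    intro j hj
    refine ⟨?_, ?_⟩
    · rw [lift_X_old hj]
      exact Set.subset_union_left
    · intro x m' v _ h
      rw [lift_X_old hj] at h
      rcases h with h | ⟨⟨h, _⟩ | ⟨y, _, h⟩, _⟩
      · exact h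
      · exact h
      · cases h
  rel := by
    intro j hj φ _ m' h hn
    exfalso
    rw [lift_X_old hj] at h
    rcases h with h | ⟨⟨h, _⟩ | ⟨y, _, h⟩, _⟩
    · exact hn h
    · exact hn h
    · cases h

/-- the restricted sequence is lifted -/
theorem lift_chain (hIS : SInvStep) (hLV : SLiftVal) (hLE : SLiftExt) (hLT : SLiftTime)
    (hv : Valid Legal r) (hp : Plan r s0 s Q W) (hi : i ∈ Q) {a b : Sys Prom}
    (ha : Inv r k i s W m a)
    (h : Relation.ReflTransGen (fun a b => Step (LgB k) a b ∧ Below (dn k) b ∧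
      InvR (star r k i s m) (WNr r W) (WQr r k s) b) a b) :
    Inv r k i s W m b ∧ Steps Legal (lift r W m a) (lift r W m b) := by
  induction h with
  | refl => exact ⟨ha, Relation.ReflTransGen.refl⟩
  | tail _ hs ih =>
    rename_i b c _
    have hc : Inv r k i s W m c :=
      hIS r s0 s Q W i m k b c hv hp ih.1 hs.1 hs.2.1 hs.2.2
    refine ⟨hc, Relation.ReflTransGen.tail ih.2 ⟨hLV r s0 s Q W k i m c hv hp hi hc, ?_⟩⟩
    obtain ⟨_, h | ⟨m', C, h⟩⟩ := hs.1
    · exact Or.inl (hLE r s0 s Q W k i m b c hv hp hi ih.1 hc h)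
    · exact Or.inr ⟨m', C, hLT r s0 s Q W k i m m' C b c hv hp hi ih.1 hc h⟩

/-- free nodes are not protected -/
theorem free_not_W {j : ℕ} (hj : j ∈ r.J) (hp : Plan r s0 s Q W) (hg : Ge k (s j)) {x : Node}
    (hx : x.Free k) : x ∉ W j := by
  intro hW
  obtain ⟨ν, d, h1, h2⟩ := hg
  exact hx ν d (hp.Wle j hj x hW ν d h1) h2

/-- the event at the lift -/
theorem ex_lift (hp : Plan r s0 s Q W) (hi : i ∈ r.J) (hg : Ge k (s i)) {t e : Sys Prom}
    (hI : Inv r k i s W m t) (hd : ∀ x y, .ds x y ∈ e.X e.rt → .nd x ∈ e.X e.rt ∧ .nd y ∈ e.X e.rt)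
    (hb : ∀ x m, .bl x m ∈ e.X e.rt → .nd x ∈ e.X e.rt)
    (hf : ∀ x, .nd x ∈ e.X e.rt → x.Free k) (hX : Ex (e.X e.rt) (t.X i)) :
    Ex (e.X e.rt) ((lift r W m t).X i) := by
  have hin : ∀ f ∈ r.X i, Keep (lowK r k s i) f → f ∈ t.X i :=
    fun f hf hk => hI.X i hi (Or.inl ⟨hf, hk⟩)
  refine ⟨⟨?_, ?_⟩, ?_⟩
  · intro f hfe
    rw [lift_X_old hi]
    refine Or.inr ⟨hX.sub hfe, ?_⟩
    cases f with
    | nd x => exact fun h => h
    | it x u v => exact fun h => h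
    | bl x u => exact fun h => free_not_W hi hp hg (hf x (hb x u hfe)) h.2
    | ds x y =>
      rintro (h | h)
      · exact free_not_W hi hp hg (hf x (hd x y hfe).1) h
      · exact free_not_W hi hp hg (hf y (hd x y hfe).2) h
    | pr φ => exact fun h => h
    | rl φ u => exact fun h => h
  · intro x m' v hx h
    rw [lift_X_old hi] at h
    rcases h with h | h
    · exact hX.it x m' v hx (hin _ h trivial)
    · exact hX.it x m' v hx h.1
  · intro ψ m' hψ h
    rw [lift_X_old hi] at h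
    rcases h with h | h
    · refine hX.rl ψ m' hψ (hin _ h ?_)
      have h1 := ((hI.val.val i (hI.J hi)).leg ψ (hX.sub hψ)).2
      rw [hI.K i hi] at h1
      exact h1
    · exact hX.rl ψ m' hψ h.1

end lift

/-- two anchored extensions -/
theorem anc_trans {r t u : Sys Prom} {A B : ℕ → ℕ} (hJ : r.J ⊆ t.J)
    (hE : ∀ p ∈ t.J, ∀ q ∈ t.J, u.E p q → t.E p q) (hEs : ∀ p q, u.E p q → u.E q p)
    (hA : Anc r t A) (hB : Anc t u B) : ∃ C, Anc r u C := by
  classical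
  refine ⟨fun q => if q ∈ t.J then A q else if B q ∈ r.J then B q else A (B q), ?_, ?_, ?_⟩
  · intro q hq hqr
    by_cases h1 : q ∈ t.J
    · simp only [h1, if_true]
      exact hA.1 q h1 hqr
    · simp only [h1, if_false]
      by_cases h2 : B q ∈ r.J
      · simp only [h2, if_true]
      · simp only [h2, if_false]
        exact hA.1 _ (hB.1 q hq h1) h2
  · intro q q' hq hq' h
    by_cases h1 : q ∈ t.J <;> by_cases h2 : q' ∈ t.J
    · simp only [h1, h2, if_true]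
      exact hA.2.1 q q' hq hq' (hE q h1 q' h2 h)
    · have := hB.2.2 q h1 q' h2 h
      simp only [h1, h2, if_true, if_false, this, hq]
    · have := hB.2.2 q' h2 q h1 (hEs _ _ h)
      simp only [h1, h2, if_true, if_false, this, hq']
    · simp only [h1, h2, if_false, hB.2.1 q q' h1 h2 h]
  · intro j hj q hq h
    by_cases h1 : q ∈ t.J
    · simp only [h1, if_true]
      exact hA.2.2 j hj q hq (hE j (hJ hj) q h1 h)
    · have := hB.2.2 j (hJ hj) q h1 h
      simp only [h1, if_false, this, hj, if_true]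

/-- transport of the protected nodes along the components which share the promise -/
theorem conn_W {r : Sys Prom} {s0 : Node} {s : ℕ → Node} {Q : Set ℕ} {W : ℕ → Set Node} {k : D}
    {i m : ℕ} {t : Sys Prom} (hv : Valid Legal r) (hp : Plan r s0 s Q W)
    (hI : Inv r k i s W m t) {φ : Prom} (hk : φ.lab = k) (hi : i ∈ r.J) {y : Node}
    (hy : ∀ Z : Fr Prom, Good Z → φ ∈ Z.Q → y ∈ Z.N) {j : ℕ} (h : Conn t φ i j) :
    j ∈ r.J ∧ (y ∈ W j → y ∈ W i) := by
  induction h with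
  | refl => exact ⟨hi, id⟩
  | tail _ hs ih =>
    rename_i p q _
    obtain ⟨hE, hφ⟩ := hs
    obtain ⟨hpJ, hW⟩ := ih
    have hG : Good (t.Z p q) := hI.val.good p q hE
    have hq : q ∈ r.J := by
      by_contra hq
      have h1 : φ.lab ∈ (t.Z p q).L := by
        have := hG.z3 φ hφ
        cases φ with
        | nil k => exact this
        | mk k c nd lb R => exact this.1
      have h2 := hI.frL p hpJ q hq hE _ h1
      rw [hI.K p hpJ, hk] at h2
      exact lt_irrefl _ h2.2.1.1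
    refine ⟨hq, fun hyq => hW ?_⟩
    have hE' : r.E p q := (hI.E p hpJ q hq).1 hE
    have hE'' : r.E q p := hv.Es _ _ hE'
    refine hp.Wsh q p hE'' y ?_ hyq
    rw [hv.symZ q p, ← hI.Z p q hE']
    exact hy _ hG hφ

theorem ev_range {φ : Prom} {m : ℕ} {e : Sys Prom} (h : Ev φ m e) {a b : ℕ} {y : Node}
    (hy : y ∈ (e.Z a b).N) {Z : Fr Prom} (hZ : Good Z) (hφ : φ ∈ Z.Q) : y ∈ Z.N := by
  have h3 := hZ.z3 φ hφ
  cases φ with
  | nil k => exact h.elim
  | mk k c nd lb R =>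
    obtain ⟨n, hn⟩ := (h.1.Z a b).1 hy
    rw [← hn]
    exact (h3.2 n).2.1

/-- row V-E from its parts and the three facts on the restricted sequence -/
theorem sroundOf_aux (hC : SClo) (hI0 : SInv0) (hIS : SInvStep) : SRoundOf := by
  intro hSt hR hLV hLE hLT hPe hAt r s0 s Q W m i φ hr hp hfr hobs
  obtain ⟨hiQ, hφi, hrl, hge⟩ := hobs
  simp only at hiQ hφi hrl hge
  have hv := hr.val
  have hiJ : i ∈ r.J := hp.QJ i hiQ
  obtain ⟨hV, hKi, hBe⟩ := hSt r s0 s Q W i m φ hv hp hiQ hφi hge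
  have hleg : Legal φ := ((hv.val i hiJ).leg φ hφi).1
  obtain ⟨⟨Z0, hZ0, hZL, hZN, hev⟩, hdense⟩ := (legal_iff φ).1 hleg
  obtain ⟨t1, e, hst1, hE, hen, hex⟩ := hdense (star r φ.lab i s m) hV hKi hBe m
  have ht1rt : t1.rt = i :=
    (Pool.Agent.H84.DL.steps_rt (Pool.Agent.H84.DL.steps_of_stepsIn hst1)).trans rfl
  rw [ht1rt] at hex
  obtain ⟨heok, hcont⟩ := hev m e hE
  -- restriction
  obtain ⟨t2, hch, hn2, hX2, hT2, A1, hA1⟩ :=
    hR (LgB φ.lab) (dn φ.lab) (star r φ.lab i s m) t1 (e.X e.rt) (WNr r W) (WQr r φ.lab s)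
      (fun ψ h => h.2) hV hBe hst1 hex.sub
      (hC r s0 s Q W i m φ e hv hp hiQ hφi hge hV hE)
  have hinv0 := hI0 r s0 s Q W i m φ.lab hv hp hV hBe
  obtain ⟨hI, hsteps⟩ := lift_chain hIS hLV hLE hLT hv hp hiQ hinv0 hch
  have hex2 : Ex (e.X e.rt) (t2.X i) :=
    ⟨⟨hT2, fun x m' v hx h => hex.it x m' v hx (hX2 i h)⟩,
      fun ψ m' hψ h => hex.rl ψ m' hψ (hX2 i h)⟩
  have hevl : ValX (fun ψ => Ll ψ.lab φ.lab ∧ Legal ψ) e.n (e.K e.rt) (e.X e.rt) :=
    heok.val.val e.rt heok.val.rt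
  have hfree : ∀ x, .nd x ∈ e.X e.rt → x.Free φ.lab := fun x hx => hZN x (hcont.X e.rt _ hx)
  have hex3 : Ex (e.X e.rt) ((lift r W m t2).X i) :=
    ex_lift hp hiJ hge hI hevl.dsx hevl.blx hfree hex2
  set r3 := lift r W m t2 with hr3
  have hv3 : Valid Legal r3 := hLV r s0 s Q W φ.lab i m t2 hv hp hiQ hI
  have hst3 : Steps Legal r r3 :=
    Relation.ReflTransGen.head ⟨hLV r s0 s Q W φ.lab i m _ hv hp hiQ hinv0, Or.inl ext_star⟩
      hsteps
  have hJ3 : ∀ {j}, j ∈ r.J → j ∈ r3.J := fun hj => hI.J hj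
  have hXr3 : ∀ {j}, j ∈ r.J → ∀ {f}, f ∈ r.X j → f ∈ r3.X j := by
    intro j hj f hf
    rw [hr3, lift_X_old hj]
    exact Or.inl hf
  have hX3 : ∀ {j}, j ∈ r.J → ∀ {f}, f ∈ r3.X j → f ∈ r.X j ∨ f ∈ t2.X j ∧ ¬ Bad W m j f := by
    intro j hj f hf
    rw [hr3, lift_X_old hj] at hf
    exact hf
  have hE3 : ∀ p ∈ r.J, ∀ q ∈ r.J, r3.E p q ↔ r.E p q := hI.E
  have hn3 : r3.n = t2.n := rfl
  -- attachment
  obtain ⟨r4, hv4, hx4, hrl4, hX4, hE4, hK4, A2, hA2⟩ :=
    hAt r3 e φ i m hv3 (hJ3 hiJ) (hXr3 hiJ hφi) hE (by rw [hen, hn3, hn2]) hex3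
  have hJ4 : ∀ {j}, j ∈ r.J → j ∈ r4.J := fun hj => hx4.J (hJ3 hj)
  have hsub4 : ∀ {j}, j ∈ r.J → ∀ {f}, f ∈ r.X j → f ∈ r4.X j :=
    by
    intro j hj f hf
    exact (hx4.X _ (hJ3 hj)).sub (hXr3 hj hf)
  have hnd4 : ∀ {j}, j ∈ r.J → ∀ {y}, .nd y ∈ r4.X j → .nd y ∈ r3.X j := by
    intro j hj y hy
    rcases hX4 j (hJ3 hj) _ hy with h | h
    · exact h
    · cases h
  have hit4 : ∀ {j}, j ∈ r.J → ∀ {y u v}, .it y u v ∈ r4.X j → .it y u v ∈ r3.X j := by
    intro j hj y u v hy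
    rcases hX4 j (hJ3 hj) _ hy with h | h
    · exact h
    · cases h
  have hbl4 : ∀ {j}, j ∈ r.J → ∀ {y u}, .bl y u ∈ r4.X j → .bl y u ∈ r3.X j := by
    intro j hj y u hy
    rcases hX4 j (hJ3 hj) _ hy with h | h
    · exact h
    · cases h
  have hds4 : ∀ {j}, j ∈ r.J → ∀ {x y}, .ds x y ∈ r4.X j → .ds x y ∈ r3.X j := by
    intro j hj x y hy
    rcases hX4 j (hJ3 hj) _ hy with h | h
    · exact h
    · cases h
  have hpr4 : ∀ {j}, j ∈ r.J → ∀ {ψ}, .pr ψ ∈ r4.X j → .pr ψ ∈ r3.X j := by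
    intro j hj ψ hy
    rcases hX4 j (hJ3 hj) _ hy with h | h
    · exact h
    · cases h
  have hndW : ∀ j ∈ r.J, ∀ y, .nd y ∈ r4.X j → y ∈ W j → .nd y ∈ r.X j := by
    intro j hj y hy hW
    rcases hX3 hj (hnd4 hj hy) with h | h
    · exact h
    · exact hI.nd j hj y h.1 hW
  have hitr : ∀ j ∈ r.J, ∀ x, .nd x ∈ r.X j → ∀ v, .it x m v ∈ r4.X j → .it x m v ∈ r.X j := by
    intro j hj x hx v h
    rcases hX3 hj (hit4 hj h) with h | h
    · exact h
    · exact hI.it j hj x hx v h.1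
  have hAw : Away r W r4 := by
    refine ⟨?_, ?_, ?_, ?_, ?_, hndW, ?_, ?_⟩
    · rw [hx4.rt]; rfl
    · exact fun j hj => hJ4 hj
    · intro p hpJ q hqJ
      rw [hx4.E p (hJ3 hpJ) q (hJ3 hqJ), hE3 p hpJ q hqJ]
    · intro j hj
      rw [hx4.K j (hJ3 hj)]
      exact lift_K_old hj
    · intro p q hpq
      have h1 : p ∈ r.J := hv.EJ p q hpq
      have h2 : q ∈ r.J := hv.EJ q p (hv.Es p q hpq)
      rw [hx4.Z p q ((hE3 p h1 q h2).2 hpq)]
      exact hI.Z p q hpq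
    · intro j hj q hq hjq y hy hW
      by_cases hq3 : q ∈ r3.J
      · have h1 : r3.E j q := (hx4.E j (hJ3 hj) q hq3).1 hjq
        rw [hx4.Z j q h1] at hy
        exact hI.frN j hj q hq h1 y hy hW
      · obtain ⟨hcn, a, hea, hZa⟩ := hE4 j (hJ3 hj) q hq3 hjq
        rw [hZa] at hy
        have hc2 : Conn t2 φ i j := hcn
        obtain ⟨_, h2⟩ := conn_W hv hp hI rfl hiJ
          (fun Z hZ hQ => ev_range hE hy hZ hQ) hc2
        exact free_not_W hiJ hp hge (hZN y ((hcont.Z e.rt a).1 hy)) (h2 hW)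
    · exact anc_trans (fun j hj => hJ3 hj) (fun p hp' q hq' h => (hx4.E p hp' q hq').1 h)
        hv4.Es (A := A1) (by exact hA1) hA2
  obtain ⟨s', W', hp', hold, hnew⟩ := hPe Legal r r4 s0 s Q W hv hv4 hp hAw
  have hKold : ∀ j ∈ r.J, r4.K j = r.K j := hAw.K
  refine ⟨r4, s', W', ⟨hv4, ?_, ?_⟩, Relation.ReflTransGen.tail hst3 ⟨hv4, Or.inl hx4⟩, hp',
    ⟨?_, ?_, ?_⟩, hAw.rt, ?_, ?_, ?_⟩
  · rw [hAw.rt, hKold _ hv.rt]
    exact hr.top
  · intro j hj hjr
    by_cases h1 : j ∈ r.J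
    · rw [hKold j h1]
      exact hr.bdd j h1 (fun h => hjr (by rw [h, hAw.rt]))
    · by_cases h2 : j ∈ r3.J
      · refine ⟨φ.lab, ?_⟩
        rw [hx4.K j h2, hr3, lift_K_new h1]
        exact hI.bel j h2
      · exact ⟨φ.lab, hK4 j hj h2⟩
  · have h1 := hx4.n
    have h2 := hI.n
    have h3 := hfr.n
    rw [hn3] at h1
    omega
  · intro j x hx hW hb
    have hj4 : j ∈ r4.J := by
      by_contra hj
      rw [hv4.nX j hj] at hx
      exact hx
    have hj : j ∈ r.J := by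
      by_contra hj
      rw [hnew j hj4 hj] at hW
      exact hW
    rw [(hold j hj).2] at hW
    rcases hX3 hj (hbl4 hj hb) with h | h
    · exact hfr.fr j x (hndW j hj x hx hW) hW h
    · exact h.2 ⟨rfl, hW⟩
  · intro j x y hx hW hy hWy hds v hit
    have hj4 : j ∈ r4.J := by
      by_contra hj
      rw [hv4.nX j hj] at hx
      exact hx
    have hj : j ∈ r.J := by
      by_contra hj
      rw [hnew j hj4 hj] at hW
      exact hW
    rw [(hold j hj).2] at hW hWy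
    have hds' : .ds x y ∈ r.X j ∨ .ds y x ∈ r.X j := by
      rcases hds with h | h
      · left
        rcases hX3 hj (hds4 hj h) with h | h
        · exact h
        · exact (h.2 (Or.inl hW)).elim
      · right
        rcases hX3 hj (hds4 hj h) with h | h
        · exact h
        · exact (h.2 (Or.inr hW)).elim
    have hyr : .nd y ∈ r.X j := by
      rcases hds' with h | h
      · exact ((hv.val j hj).dsx _ _ h).2
      · exact ((hv.val j hj).dsx _ _ h).1
    exact hfr.tok j x y (hndW j hj x hx hW) hW hyr hWy hds' v (hitr j hj y hyr v hit)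
  · exact fun h => h.2.2.1 hrl4
  · rintro ⟨j, ψ⟩ ⟨h1, h2, h3, h4⟩
    simp only at h1 h2 h3 h4
    have hj : j ∈ r.J := hp.QJ j h1
    rw [(hold j hj).1] at h4
    rcases hX3 hj (hpr4 hj h2) with h | h
    · exact Or.inl ⟨h1, h, fun h5 => h3 (hsub4 hj h5), h4⟩
    · right
      have h5 := ((hI.val.val j (hI.J hj)).leg ψ h.1).2
      rw [hI.K j hj] at h5
      exact h5.2.1
  · exact fun j hj x v hx h => hitr j hj x hx v h

theorem sClo : SClo := fun _ _ _ _ _ _ _ _ _ hv hp hi hφ hg _ hE => cloStar hv hp hi hφ hg hE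

theorem sInv0 : SInv0 := fun _ _ _ _ _ _ _ _ hv _ hV _ => inv0 hv hV

theorem sInvStep : SInvStep :=
  fun _ _ _ _ _ _ _ _ _ _ hv hp ha hs hb hI => invStep hv hp ha hs hb hI

end Rd

/-- row V-E -/
theorem sroundOf : SRoundOf := Rd.sroundOf_aux Rd.sClo Rd.sInv0 Rd.sInvStep

end Pool.Agent.DL.P.V
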