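import Pool.Agent.DL.P.V.Stm

/-!
# DELTA (MP_d362fb_lc): Lemma V, one round, first part: the closed families for Lemma R and the
invariant of the restricted sequence
-/

set_option autoImplicit false

namespace Pool.Agent.DL.P.V

open H5.DL

variable {r : Sys Prom} {s0 : Node} {s : ℕ → Node} {Q : Set ℕ} {W : ℕ → Set Node} {k : D}
  {i m : ℕ}

/-- the nodes which may be kept -/
def wn (r : Sys Prom) (W : ℕ → Set Node) (j : ℕ) : Set Node := {y | .nd y ∈ r.X j ∨ y ∉ W j}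

/-- the promises which may be kept -/
def wq (r : Sys Prom) (k : D) (s : ℕ → Node) (j : ℕ) : Set Prom := {ψ | ψ.lab ∈ lowK r k s j}

theorem up_of_le {l : D} {x y : Node} (h : x ≤ y) (hu : Up l x) : Up l y := by
  obtain ⟨ν, d, h1, h2⟩ := hu
  exact ⟨ν, d, h ν d h1, h2⟩

theorem ge_of_le {l : D} {x y : Node} (h : x ≤ y) (hu : Ge l x) : Ge l y := by
  obtain ⟨ν, d, h1, h2⟩ := hu
  exact ⟨ν, d, h ν d h1, h2⟩

theorem Up.not_free {l : D} {x : Node} (hu : Up l x) : ¬ x.Free l := by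
  obtain ⟨ν, d, h1, h2⟩ := hu
  exact fun h => h ν d h1 h2.le

theorem Ge.not_free {l : D} {x : Node} (hu : Ge l x) : ¬ x.Free l := by
  obtain ⟨ν, d, h1, h2⟩ := hu
  exact fun h => h ν d h1 h2

theorem Up.mono {l l' : D} {x : Node} (h : l' ≤ l) (hu : Up l x) : Up l' x := by
  obtain ⟨ν, d, h1, h2⟩ := hu
  exact ⟨ν, d, h1, Ll.of_le h h2⟩

theorem Ge.up {l l' : D} {x : Node} (h : Ll l' l) (hu : Ge l x) : Up l' x := by
  obtain ⟨ν, d, h1, h2⟩ := hu
  exact ⟨ν, d, h1, Ll.trans_le h h2⟩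

theorem lowK_lower {j : ℕ} (h : IsLowerSet (r.K j)) : IsLowerSet (lowK r k s j) := by
  rintro l l' hl ⟨h1, h2, h3⟩
  exact ⟨h hl h1, Ll.of_le hl h2, h3.mono hl⟩

theorem lab_of_in {Z : Fr Prom} (hZ : Good Z) {ψ : Prom} (h : ψ ∈ Z.Q) : ψ.lab ∈ Z.L := by
  have h := hZ.z3 ψ h
  cases ψ with
  | nil k => exact h
  | mk k c nd lb R => exact h.1

theorem lowK_adm (hv : Valid Legal r) (hP : Plan r s0 s Q W) {p q : ℕ} (hE : r.E p q) {l : D}
    (hl : l ∈ (r.Z p q).L) (h : l ∈ lowK r k s p) : l ∈ lowK r k s q :=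
  ⟨hv.adm p q hE l hl h.1, h.2.1, hP.adm p q hE l hl h.1 h.2.2⟩

theorem W_sh (hv : Valid Legal r) (hP : Plan r s0 s Q W) {p q : ℕ} (hE : r.E p q) {y : Node}
    (hy : y ∈ (r.Z p q).N) : y ∈ W p ↔ y ∈ W q :=
  ⟨hP.Wsh p q hE y hy, hP.Wsh q p (hv.Es p q hE) y (hv.symZ p q ▸ hy)⟩

/-- nodes which are free for a label of the lowered level are not protected -/
theorem not_W_of_free (hP : Plan r s0 s Q W) {j : ℕ} (hj : j ∈ r.J) {l : D}
    (hl : l ∈ lowK r k s j) {y : Node} (hy : y.Free l) : y ∉ W j :=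
  fun h => (up_of_le (hP.Wle j hj y h) hl.2.2).not_free hy

/-- events of a legal promise with label in the lowered level -/
theorem ev_low (hv : Valid Legal r) (hP : Plan r s0 s Q W) {j : ℕ} (hj : j ∈ r.J) {ψ : Prom}
    (hψ : Legal ψ) (hl : ψ.lab ∈ lowK r k s j) {m' : ℕ} {e : Sys Prom} (he : Ev ψ m' e) :
    ∃ Z, ContIn e Z ∧ Good Z ∧ (∀ d ∈ Z.L, d ∈ lowK r k s j) ∧ ∀ y ∈ Z.N, y ∉ W j := by
  obtain ⟨Z, h1, h2, h3, h4⟩ := ((legal_iff ψ).1 hψ).fr
  refine ⟨Z, (h4 m' e he).2, h1, fun d hd => ?_, fun y hy => not_W_of_free hP hj hl (h3 y hy)⟩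
  exact lowK_lower (hv.low j hj) (h2 d hd).le hl

/-- the lowered level of the root of the star system -/
theorem lowK_root (hv : Valid Legal r) (hj : i ∈ r.J) (hk : k ∈ r.K i) (h : Ge k (s i)) :
    lowK r k s i = dn k := by
  ext l
  exact ⟨fun h' => h'.2.1, fun hl => ⟨hv.low i hj hl.le hk, hl, h.up hl⟩⟩

/-- the families for Lemma R -/
theorem cloStar (hv : Valid Legal r) (hP : Plan r s0 s Q W) (hi : i ∈ Q) {φ : Prom}
    (hφ : .pr φ ∈ r.X i) (hk : Ge φ.lab (s i)) {m' : ℕ} {e : Sys Prom} (he : Ev φ m' e) :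
    Clo (star r φ.lab i s m) (e.X e.rt) (wn r W) (wq r φ.lab s) := by
  have hiJ : i ∈ r.J := hP.QJ i hi
  have hleg := (hv.val i hiJ).leg φ hφ
  obtain ⟨Z, h1, h2, h3, h4⟩ := ((legal_iff φ).1 hleg.1).fr
  have hroot := lowK_root (s := s) hv hiJ hleg.2 hk
  have hce := (h4 m' e he).2
  have hve := (h4 m' e he).1.val
  have hX := hve.val e.rt hve.rt
  exact {
    t1 := fun x m h => hX.blx x m h
    t2 := fun x m v h => hX.blx x m (hX.itb x m v h).1
    t3 := fun x y h => hX.dsx x y h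
    t4 := fun ψ m h => hX.rlx ψ m h
    rN := by
      rintro j hj y (h | ⟨x, -, h⟩)
      · exact Or.inl h.1
      · cases h
    rQ := by
      rintro j hj ψ (h | ⟨x, -, h⟩)
      · exact h.2
      · cases h
    tN := by
      intro y hy
      refine Or.inr fun hW => ?_
      have h5 : s i ≤ y := hP.Wle i hiJ y hW
      exact (ge_of_le h5 hk).not_free (h3 y (hce.X _ _ hy))
    tQ := by
      intro ψ hψ
      show ψ.lab ∈ lowK r φ.lab s i
      rw [hroot]
      exact h2 _ (lab_of_in h1 (hce.X _ _ hψ))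
    eN := by
      intro j hj ψ hψ hL m e he y hy
      obtain ⟨Z, a1, a2, a3, a4⟩ := ev_low hv hP hj hL hψ he
      exact Or.inr (a4 y (a1.X _ _ hy))
    eQ := by
      intro j hj ψ hψ hL m e he χ hχ
      obtain ⟨Z, a1, a2, a3, a4⟩ := ev_low hv hP hj hL hψ he
      exact a3 _ (lab_of_in a2 (a1.X _ _ hχ))
    fN := by
      intro j hj ψ hψ hL m e he a _ y hy
      obtain ⟨Z, a1, a2, a3, a4⟩ := ev_low hv hP hj hL hψ he
      exact Or.inr (a4 y ((a1.Z _ _).1 hy))
    fQ := by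
      intro j hj ψ hψ hL m e he a _ χ hχ
      obtain ⟨Z, a1, a2, a3, a4⟩ := ev_low hv hP hj hL hψ he
      exact a3 _ (lab_of_in a2 ((a1.Z _ _).2.1 hχ))
    sN := by
      intro p q hE y hy h
      rcases h with h | h
      · exact Or.inl (hv.sh p q hE (.nd y) hy h)
      · exact Or.inr fun h' => h ((W_sh hv hP hE hy).2 h')
    sQ := by
      intro p q hE ψ hψ h
      exact lowK_adm hv hP hE (lab_of_in (hv.good p q hE) hψ) h }

/-- the invariant holds for the star system -/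
theorem inv0 (hv : Valid Legal r) (hst : Valid (LgB k) (star r k i s m)) :
    Inv r k i s W m (star r k i s m) where
  val := hst
  bel := fun _ _ _ hl => hl.2.1
  n := le_rfl
  rt := rfl
  J := subset_rfl
  E := fun _ _ _ _ => Iff.rfl
  K := fun _ _ => rfl
  Z := fun _ _ _ => rfl
  X := fun _ _ => subset_rfl
  it := by
    rintro j hj x hx v (h | ⟨x, -, h⟩)
    · exact h.1
    · cases h
  nd := by
    rintro j hj y (h | ⟨x, -, h⟩) _
    · exact h.1
    · cases h
  frN := fun j _ q hq hE => (hq (hv.EJ q j (hv.Es j q hE))).elim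
  frL := fun j _ q hq hE => (hq (hv.EJ q j (hv.Es j q hE))).elim

/-- the invariant is kept by the steps of the restricted sequence -/
theorem invStep (hv : Valid Legal r) (hP : Plan r s0 s Q W) {a b : Sys Prom}
    (ha : Inv r k i s W m a) (hs : Step (LgB k) a b) (hb : Below (dn k) b)
    (hI : InvR (star r k i s m) (wn r W) (wq r k s) b) : Inv r k i s W m b := by
  have hvb := hs.1
  have base : r.n ≤ b.n ∧ b.rt = i ∧ r.J ⊆ b.J ∧ (∀ p ∈ r.J, ∀ q ∈ r.J, b.E p q ↔ r.E p q) ∧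
      (∀ j ∈ r.J, b.K j = lowK r k s j) ∧ (∀ p q, r.E p q → b.Z p q = r.Z p q) ∧
      (∀ j ∈ r.J, (star r k i s m).X j ⊆ b.X j) ∧
      ∀ j ∈ r.J, ∀ x, .nd x ∈ r.X j → ∀ v, .it x m v ∈ b.X j → .it x m v ∈ r.X j := by
    rcases hs.2 with h | ⟨m', C, h⟩
    · refine ⟨h.n ▸ ha.n, h.rt.trans ha.rt, ha.J.trans h.J, fun p hp q hq => ?_, fun j hj => ?_,
        fun p q hE => ?_, fun j hj => ?_, fun j hj x hx v hf => ?_⟩
      · exact (h.E p (ha.J hp) q (ha.J hq)).trans (ha.E p hp q hq)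
      · exact (h.K j (ha.J hj)).trans (ha.K j hj)
      · have hE' : a.E p q := (ha.E p (hv.EJ p q hE) q (hv.EJ q p (hv.Es p q hE))).2 hE
        exact (h.Z p q hE').trans (ha.Z p q hE)
      · exact (ha.X j hj).trans (h.X j (ha.J hj)).sub
      · have hx' : .nd x ∈ a.X j := ha.X j hj (Or.inl ⟨hx, trivial⟩)
        exact ha.it j hj x hx v ((h.X j (ha.J hj)).it x m v hx' hf)
    · refine ⟨?_, h.rt.trans ha.rt, h.J ▸ ha.J, fun p hp q hq => ?_, fun j hj => ?_,
        fun p q hE => ?_, fun j hj f hf => ?_, fun j hj x hx v hf => ?_⟩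
      · rw [h.n]; exact ha.n.trans (Nat.le_succ _)
      · rw [h.E]; exact ha.E p hp q hq
      · rw [h.K]; exact ha.K j hj
      · rw [h.Z]; exact ha.Z p q hE
      · exact (h.X j f).2 (Or.inl (ha.X j hj hf))
      · rcases (h.X j _).1 hf with hf | ⟨x', hx', hf | hf⟩
        · exact ha.it j hj x hx v hf
        · injection hf with e1 e2 e3
          subst e1 e2
          exact (h.free j x hx' (ha.X j hj (Or.inr ⟨x, hx, rfl⟩))).elim
        · cases hf
  obtain ⟨b1, b2, b3, b4, b5, b6, b7, b8⟩ := base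
  exact {
    val := hvb
    bel := hb
    n := b1
    rt := b2
    J := b3
    E := b4
    K := b5
    Z := b6
    X := b7
    it := b8
    nd := by
      intro j hj y hy hW
      rcases hI.N j hj y hy with h | h
      · exact h
      · exact (h hW).elim
    frN := by
      intro j hj q hq hE y hy
      obtain ⟨ψ, m', e, a', h1, h2, h3, h4⟩ := hI.fr j hj q hq hE
      have hleg := (hvb.val j (b3 hj)).leg ψ h1
      have hlab : ψ.lab ∈ lowK r k s j := b5 j hj ▸ hleg.2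
      obtain ⟨Z, a1, a2, a3, a4⟩ := ev_low hv hP hj hleg.1.2 hlab h2
      rw [h4] at hy
      exact a4 y ((a1.Z _ _).1 hy)
    frL := by
      intro j hj q hq hE l hl
      obtain ⟨ψ, m', e, a', h1, h2, h3, h4⟩ := hI.fr j hj q hq hE
      have hleg := (hvb.val j (b3 hj)).leg ψ h1
      have hlab : ψ.lab ∈ lowK r k s j := b5 j hj ▸ hleg.2
      obtain ⟨Z, a1, a2, a3, a4⟩ := ev_low hv hP hj hleg.1.2 hlab h2
      rw [h4] at hl
      rw [b5 j hj]
      exact a3 l ((a1.Z _ _).2.2 hl) }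

/-- the lifted sequence -/
theorem liftSeq (C1 : SLiftVal) (C2 : SLiftExt) (C3 : SLiftTime) (hv : Valid Legal r)
    (hP : Plan r s0 s Q W) (hi : i ∈ Q) (hst : Valid (LgB k) (star r k i s m)) {t : Sys Prom}
    (h : Relation.ReflTransGen (fun a b => Step (LgB k) a b ∧ Below (dn k) b ∧
      InvR (star r k i s m) (wn r W) (wq r k s) b) (star r k i s m) t) :
    Inv r k i s W m t ∧ Steps Legal (lift r W m (star r k i s m)) (lift r W m t) := by
  induction h with
  | refl => exact ⟨inv0 hv hst, Relation.ReflTransGen.refl⟩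
  | tail _ h ih =>
    obtain ⟨ha, hs⟩ := ih
    have hb := invStep hv hP ha h.1 h.2.1 h.2.2
    refine ⟨hb, hs.tail ⟨C1 r s0 s Q W k i m _ hv hP hi hb, ?_⟩⟩
    rcases h.1.2 with h' | ⟨m', C, h'⟩
    · exact Or.inl (C2 r s0 s Q W k i m _ _ hv hP hi ha hb h')
    · exact Or.inr ⟨m', C, C3 r s0 s Q W k i m m' C _ _ hv hP hi ha hb h'⟩

end Pool.Agent.DL.P.V
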