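import Pool.Agent.DL.P.V.RoundA

/-!
# DELTA (MP_d362fb_lc): Lemma V, one round, second part: the first lifted step, the content of
the root of the event in the lifted system
-/

set_option autoImplicit false

namespace Pool.Agent.DL.P.V

open H5.DL

variable {r : Sys Prom} {s0 : Node} {s : ℕ → Node} {Q : Set ℕ} {W : ℕ → Set Node} {k : D}
  {i m : ℕ}

theorem lift_K_old {t : Sys Prom} {j : ℕ} (hj : j ∈ r.J) : (lift r W m t).K j = r.K j :=
  if_pos hj

theorem lift_K_new {t : Sys Prom} {j : ℕ} (hj : j ∉ r.J) : (lift r W m t).K j = t.K j :=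
  if_neg hj

theorem lift_X_old {t : Sys Prom} {j : ℕ} (hj : j ∈ r.J) :
    (lift r W m t).X j = r.X j ∪ {f | f ∈ t.X j ∧ ¬ Bad W m j f} :=
  if_pos hj

theorem lift_X_new {t : Sys Prom} {j : ℕ} (hj : j ∉ r.J) : (lift r W m t).X j = t.X j :=
  if_neg hj

/-- the first lifted step -/
theorem liftFirst (C1 : SLiftVal) (hv : Valid Legal r) (hP : Plan r s0 s Q W) (hi : i ∈ Q)
    (hst : Valid (LgB k) (star r k i s m)) : Step Legal r (lift r W m (star r k i s m)) := by
  refine ⟨C1 r s0 s Q W k i m _ hv hP hi (inv0 hv hst), Or.inl ?_⟩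
  exact {
    n := rfl
    rt := rfl
    J := subset_rfl
    E := fun _ _ _ _ => Iff.rfl
    K := fun j hj => lift_K_old hj
    Z := fun _ _ _ => rfl
    X := by
      intro j hj
      rw [lift_X_old hj]
      refine ⟨Set.subset_union_left, ?_⟩
      rintro x m' v _ (h | ⟨h | ⟨y, -, h⟩, -⟩)
      · exact h
      · exact h.1
      · cases h
    rel := by
      intro j hj φ _ m' h1 h2
      rw [lift_X_old hj] at h1
      rcases h1 with h | ⟨h | ⟨y, -, h⟩, -⟩
      · exact (h2 h).elim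
      · exact (h2 h.1).elim
      · cases h }

/-- the root content of the event is in the lifted system -/
theorem rootIn (hv : Valid Legal r) (hP : Plan r s0 s Q W) (hi : i ∈ Q) {φ : Prom}
    (hφ : .pr φ ∈ r.X i) (hk : Ge φ.lab (s i)) {m' : ℕ} {e : Sys Prom} (he : Ev φ m' e)
    {t : Sys Prom} (hI : Inv r φ.lab i s W m t) (h : Ex (e.X e.rt) (t.X i)) :
    Ex (e.X e.rt) ((lift r W m t).X i) := by
  have hiJ : i ∈ r.J := hP.QJ i hi
  have hleg := (hv.val i hiJ).leg φ hφ
  obtain ⟨Z, h1, h2, h3, h4⟩ := ((legal_iff φ).1 hleg.1).fr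
  have hroot := lowK_root (s := s) hv hiJ hleg.2 hk
  have hce := (h4 m' e he).2
  have hve := (h4 m' e he).1.val
  have hX := hve.val e.rt hve.rt
  have hnW : ∀ x, .nd x ∈ e.X e.rt → x ∉ W i := by
    intro x hx hW
    exact (ge_of_le (hP.Wle i hiJ x hW) hk).not_free (h3 x (hce.X _ _ hx))
  have hlow : ∀ ψ, .pr ψ ∈ e.X e.rt → ψ.lab ∈ lowK r φ.lab s i := by
    intro ψ hψ
    rw [hroot]
    exact h2 _ (lab_of_in h1 (hce.X _ _ hψ))
  rw [lift_X_old hiJ]
  refine ⟨⟨fun f hf => Or.inr ⟨h.sub hf, ?_⟩, ?_⟩, ?_⟩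
  · cases f with
    | nd x => exact fun h => h
    | it x m v => exact fun h => h
    | bl x m => exact fun h => hnW x (hX.blx x m hf) h.2
    | ds x y =>
      rintro (h | h)
      · exact hnW x (hX.dsx x y hf).1 h
      · exact hnW y (hX.dsx x y hf).2 h
    | pr φ => exact fun h => h
    | rl φ m => exact fun h => h
  · rintro x m'' v hx (hf | hf)
    · exact h.it x m'' v hx (hI.X i hiJ (Or.inl ⟨hf, trivial⟩))
    · exact h.it x m'' v hx hf.1
  · rintro ψ m'' hψ (hf | hf)
    · exact h.rl ψ m'' hψ (hI.X i hiJ (Or.inl ⟨hf, hlow ψ hψ⟩))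
    · exact h.rl ψ m'' hψ hf.1

/-- the facts of an old component of the lifted system -/
theorem lift_old_facts (hv : Valid Legal r) {t : Sys Prom} (hI : Inv r k i s W m t) {j : ℕ}
    (hj : j ∈ r.J) {f : Fact Prom} (hf : f ∈ (lift r W m t).X j) :
    f ∈ r.X j ∨ f ∈ t.X j ∧ ¬ Bad W m j f := by
  rw [lift_X_old hj] at hf
  exact hf

/-- nodes of old components in the lifted system -/
theorem lift_nd (hv : Valid Legal r) {t : Sys Prom} (hI : Inv r k i s W m t) {j : ℕ}
    (hj : j ∈ r.J) {y : Node} : .nd y ∈ (lift r W m t).X j ↔ .nd y ∈ t.X j := by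
  rw [lift_X_old hj]
  constructor
  · rintro (h | h)
    · exact hI.X j hj (Or.inl ⟨h, trivial⟩)
    · exact h.1
  · exact fun h => Or.inr ⟨h, fun h => h⟩

/-- protected nodes of old components in the lifted system are old -/
theorem lift_nd_W (hv : Valid Legal r) {t : Sys Prom} (hI : Inv r k i s W m t) {j : ℕ}
    (hj : j ∈ r.J) {y : Node} (hy : .nd y ∈ (lift r W m t).X j) (hW : y ∈ W j) :
    .nd y ∈ r.X j :=
  hI.nd j hj y ((lift_nd hv hI hj).1 hy) hW

/-- `m` is free at the protected nodes in the lifted system -/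
theorem lift_free_old (hv : Valid Legal r) {t : Sys Prom} (hI : Inv r k i s W m t)
    (hF : FreeAt r W m) {j : ℕ} (hj : j ∈ r.J) {x : Node} (hx : .nd x ∈ (lift r W m t).X j)
    (hW : x ∈ W j) : .bl x m ∉ (lift r W m t).X j := by
  have h1 := lift_nd_W hv hI hj hx hW
  rw [lift_X_old hj]
  rintro (h | h)
  · exact hF.fr j x h1 hW h
  · exact h.2 ⟨rfl, hW⟩

/-- the tokens at the protected nodes in the lifted system -/
theorem lift_tok_old (hv : Valid Legal r) {t : Sys Prom} (hI : Inv r k i s W m t)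
    (hF : FreeAt r W m) {j : ℕ} (hj : j ∈ r.J) {x y : Node}
    (hx : .nd x ∈ (lift r W m t).X j) (hW : x ∈ W j) (hy : .nd y ∈ (lift r W m t).X j)
    (hyW : y ∉ W j) (hd : .ds x y ∈ (lift r W m t).X j ∨ .ds y x ∈ (lift r W m t).X j) (v : ℕ) :
    .it y m v ∉ (lift r W m t).X j := by
  have h1 := lift_nd_W hv hI hj hx hW
  have hd' : .ds x y ∈ r.X j ∨ .ds y x ∈ r.X j := by
    rw [lift_X_old hj] at hd
    rcases hd with (h | h) | (h | h)
    · exact Or.inl h
    · exact (h.2 (Or.inl hW)).elim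
    · exact Or.inr h
    · exact (h.2 (Or.inr hW)).elim
  have hyr : .nd y ∈ r.X j := by
    rcases hd' with h | h
    · exact ((hv.val j hj).dsx x y h).2
    · exact ((hv.val j hj).dsx y x h).1
  have hno := hF.tok j x y h1 hW hyr hyW hd' v
  rw [lift_X_old hj]
  rintro (h | h)
  · exact hno h
  · exact hno (hI.it j hj y hyr v h.1)

/-- items of old nodes at `m` -/
theorem lift_it_old (hv : Valid Legal r) {t : Sys Prom} (hI : Inv r k i s W m t) {j : ℕ}
    (hj : j ∈ r.J) {x : Node} {v : ℕ} (hx : .nd x ∈ r.X j)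
    (h : .it x m v ∈ (lift r W m t).X j) : .it x m v ∈ r.X j := by
  rw [lift_X_old hj] at h
  rcases h with h | h
  · exact h
  · exact hI.it j hj x hx v h.1

/-- promises of old components in the lifted system -/
theorem lift_pr (hv : Valid Legal r) {t : Sys Prom} (hI : Inv r k i s W m t) {j : ℕ}
    (hj : j ∈ r.J) {ψ : Prom} (h : .pr ψ ∈ (lift r W m t).X j) :
    .pr ψ ∈ r.X j ∨ Ll ψ.lab k := by
  rw [lift_X_old hj] at h
  rcases h with h | h
  · exact Or.inl h
  · exact Or.inr (((hI.val.val j (hI.J hj)).leg ψ h.1).1.1)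

end Pool.Agent.DL.P.V
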