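import Pool.Agent.DL.P.V.Lift

/-!
# DELTA, Lemma V, row V-E (c): the plan is not touched by the attachment
-/

set_option autoImplicit false

namespace Pool.Agent.DL.P.V

open H5.DL

/-- nodes of the frames of an event are in every frame which contains the promise -/
theorem ev_frame_node {φ : Prom} {m : ℕ} {e : Sys Prom} (he : Ev φ m e) {Z : Fr Prom}
    (hZ : Good Z) (hφ : φ ∈ Z.Q) {a b : ℕ} {y : Node} (hy : y ∈ (e.Z a b).N) : y ∈ Z.N := by
  have h1 := hZ.z3 φ hφ
  cases φ with
  | nil k => exact he.elim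
  | mk k c nd lb R =>
    obtain ⟨n, rfl⟩ := (he.1.Z a b).1 hy
    exact (h1.2 n).2.1

/-- V-E (c) -/
theorem awayAttach {r t2 r4 e : Sys Prom} {φ : Prom} {i m m' : ℕ} {s0 : Node} {s : ℕ → Node}
    {Q : Set ℕ} {W : ℕ → Set Node} {anc1 anc2 : ℕ → ℕ} (hv : Valid Legal r)
    (hP : Plan r s0 s Q W) (hi : i ∈ Q) (hφ : .pr φ ∈ r.X i) (hg : Ge φ.lab (s i))
    (hI : Inv r φ.lab i s W m t2) (ha1 : Anc r t2 anc1) (hv4 : Valid Legal r4)
    (hE : Ev φ m' e) (hx : Ext (lift r W m t2) r4)
    (hf : ∀ j ∈ (lift r W m t2).J, ∀ f ∈ r4.X j, f ∈ (lift r W m t2).X j ∨ f = .rl φ m')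
    (hn : ∀ j ∈ (lift r W m t2).J, ∀ q, q ∉ (lift r W m t2).J → r4.E j q →
      Conn (lift r W m t2) φ i j ∧ ∃ a, e.E e.rt a ∧ r4.Z j q = e.Z e.rt a)
    (ha2 : Anc (lift r W m t2) r4 anc2) : Away r W r4 := by
  classical
  have hJ2 : (lift r W m t2).J = t2.J := rfl
  have hiJ := hP.QJ i hi
  have hleg := ((hv.val i hiJ).leg φ hφ).1
  obtain ⟨Z, -, -, hZf, hZe⟩ := ((legal_iff φ).1 hleg).fr
  have hok := hZe m' e hE
  have hE4 : ∀ p ∈ t2.J, ∀ q ∈ t2.J, r4.E p q ↔ t2.E p q := fun p hp q hq => hx.E p hp q hq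
  have hZ4 : ∀ p q, t2.E p q → r4.Z p q = t2.Z p q := fun p q h => hx.Z p q h
  refine
    { rt := hx.rt
      J := fun j hj => hx.J (hI.J hj)
      E := fun p hp q hq => (hE4 p (hI.J hp) q (hI.J hq)).trans (hI.E p hp q hq)
      K := fun j hj => (hx.K j (hI.J hj)).trans (lf_K_old hj)
      Z := ?_
      nd := ?_
      frN := ?_
      anc := ?_ }
  · intro p q h
    have hp := hv.EJ p q h
    have hq := hv.EJ q p (hv.Es p q h)
    rw [hZ4 p q ((hI.E p hp q hq).2 h)]
    exact hI.Z p q h
  · intro j hj y hy hyW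
    rcases hf j (hI.J hj) _ hy with h0 | h0
    · exact hI.nd j hj y (hI.of_lift h0 fun _ => trivial) hyW
    · cases h0
  · intro j hj q hq hjq y hy
    by_cases hq2 : q ∈ t2.J
    · have h1 := (hE4 j (hI.J hj) q hq2).1 hjq
      rw [hZ4 j q h1] at hy
      exact hI.frN j hj q hq h1 y hy
    · obtain ⟨hC, a, -, hZa⟩ := hn j (hI.J hj) q hq2 hjq
      rw [hZa] at hy
      have hyZ : y ∈ Z.N := (hok.2.Z e.rt a).1 hy
      have key : (j ∈ r.J → y ∉ W j) ∧ (j ∉ r.J → y ∉ W (anc1 j)) := by
        clear hjq hZa hj hq hq2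
        induction hC with
        | refl =>
          refine ⟨fun _ hyW => ?_, fun h => absurd hiJ h⟩
          obtain ⟨ν, d, h1, h2⟩ := hg
          exact hZf y hyZ ν d (hP.Wle i hiJ y hyW ν d h1) h2
        | @tail p q _ hpq ih =>
          obtain ⟨hpq, hφZ⟩ := hpq
          have hpq' : t2.E p q := hpq
          have hyN : y ∈ (t2.Z p q).N := ev_frame_node hE (hI.val.good p q hpq') hφZ hy
          by_cases hp : p ∈ r.J
          · by_cases hq : q ∈ r.J
            · refine ⟨fun _ hyW => ih.1 hp ?_, fun h => absurd hq h⟩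
              have hr := (hI.E p hp q hq).1 hpq'
              rw [hI.Z p q hr] at hyN
              refine hP.Wsh q p (hv.Es p q hr) y ?_ hyW
              rw [hv.symZ q p]
              exact hyN
            · refine ⟨fun h => absurd h hq, fun _ => ?_⟩
              rw [ha1.2.2 p hp q hq hpq']
              exact ih.1 hp
          · by_cases hq : q ∈ r.J
            · refine ⟨fun _ => ?_, fun h => absurd hq h⟩
              rw [← ha1.2.2 q hq p hp (hI.val.Es p q hpq')]
              exact ih.2 hp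
            · refine ⟨fun h => absurd h hq, fun _ => ?_⟩
              rw [← ha1.2.1 p q hp hq hpq']
              exact ih.2 hp
      exact key.1 hj
  · refine ⟨fun q => if q ∈ t2.J then anc1 q else if anc2 q ∈ r.J then anc2 q else
      anc1 (anc2 q), ?_, ?_, ?_⟩
    · intro q hq4 hq
      by_cases hq2 : q ∈ t2.J
      · simp only [hq2, if_true]
        exact ha1.1 q hq2 hq
      · have h1 := ha2.1 q hq4 hq2
        rw [hJ2] at h1
        simp only [hq2, if_false]
        by_cases h2 : anc2 q ∈ r.J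
        · simp only [h2, if_true]
        · simp only [h2, if_false]
          exact ha1.1 _ h1 h2
    · intro q q' hq hq' hqq
      have hsym := hv4.Es q q' hqq
      by_cases hq2 : q ∈ t2.J
      · by_cases hq2' : q' ∈ t2.J
        · simp only [hq2, hq2', if_true]
          exact ha1.2.1 q q' hq hq' ((hE4 q hq2 q' hq2').1 hqq)
        · have h1 := ha2.2.2 q hq2 q' hq2' hqq
          simp only [hq2, hq2', if_true, if_false, h1, hq]
      · by_cases hq2' : q' ∈ t2.J
        · have h1 := ha2.2.2 q' hq2' q hq2 hsym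
          simp only [hq2, hq2', if_true, if_false, h1, hq']
        · have h1 := ha2.2.1 q q' hq2 hq2' hqq
          simp only [hq2, hq2', if_false, h1]
    · intro j hj q hq hjq
      by_cases hq2 : q ∈ t2.J
      · simp only [hq2, if_true]
        exact ha1.2.2 j hj q hq ((hE4 j (hI.J hj) q hq2).1 hjq)
      · have h1 := ha2.2.2 j (hI.J hj) q hq2 hjq
        simp only [hq2, if_false, h1, hj, if_true]

end Pool.Agent.DL.P.V
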